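import Pool.Agent.W738.HS.Op

/-!
Components of `T z^α`.
-/

set_option autoImplicit false

open MeasureTheory Topology Filter Set Metric
open scoped ENNReal NNReal ContDiff ComplexConjugate

namespace Pool.Agent.W738.HS

variable {n : ℕ}

/-- the exponents of the monomials which belong to the Bergman space -/
def Sset (Ω : Set (Fin n → ℂ)) : Set (Fin n → ℤ) :=
  {α | MemLp (mon α) 2 (volume.restrict Ω) ∧ ∃ G : (Fin n → ℂ) → ℂ, DifferentiableOn ℂ G Ω ∧
    ∀ z ∈ Ω, (∀ j, z j ≠ 0) → G z = mon α z}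

theorem measurable_mon (α : Fin n → ℤ) : Measurable (mon α : (Fin n → ℂ) → ℂ) := by
  unfold mon
  apply Finset.measurable_prod
  intro j _
  exact (measurable_pi_apply j).pow_const (α j)

theorem ae_good {Ω : Set (Fin n → ℂ)} (hΩ : MeasurableSet Ω) :
    ∀ᵐ z ∂(volume.restrict Ω : Measure (Fin n → ℂ)), z ∈ Ω ∧ ∀ j, z j ≠ 0 := by
  filter_upwards [ae_restrict_mem hΩ, ae_restrict_of_ae ae_ne_zero] with z h1 h2
  exact ⟨h1, h2⟩

/-- the monomial as an element of the Bergman space -/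
noncomputable def vec {Ω : Set (Fin n → ℂ)} (hΩ : IsOpen Ω) {α : Fin n → ℤ} (hα : α ∈ Sset Ω) :
    bergman Ω :=
  ⟨hα.1.toLp _, by
    obtain ⟨G, hG, hGe⟩ := hα.2
    refine ⟨G, hG, ?_⟩
    filter_upwards [hα.1.coeFn_toLp, ae_good hΩ.measurableSet] with z h1 h2
    rw [h1, hGe z h2.1 h2.2]⟩

/-- the squared norm of a monomial -/
noncomputable def N (Ω : Set (Fin n → ℂ)) (α : Fin n → ℤ) : ℝ := ∫ z in Ω, ‖mon α z‖ ^ 2

theorem integrable_sq {Ω : Set (Fin n → ℂ)} {φ : (Fin n → ℂ) → ℂ}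
    (h : MemLp φ 2 (volume.restrict Ω)) : IntegrableOn (fun z => ‖φ z‖ ^ 2) Ω := by
  have := h.integrable_norm_rpow (by norm_num) (by norm_num)
  simpa [IntegrableOn] using this

theorem inner_toLp {Ω : Set (Fin n → ℂ)} {φ ψ : (Fin n → ℂ) → ℂ}
    (h : MemLp φ 2 (volume.restrict Ω)) (h' : MemLp ψ 2 (volume.restrict Ω)) :
    inner ℂ (h.toLp φ : L2 Ω) (h'.toLp ψ) = ∫ z in Ω, conj (φ z) * ψ z := by
  rw [MeasureTheory.L2.inner_def]
  apply integral_congr_ae
  filter_upwards [h.coeFn_toLp, h'.coeFn_toLp] with z h1 h2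
  rw [h1, h2, RCLike.inner_apply, mul_comm]

theorem norm_toLp_sq {Ω : Set (Fin n → ℂ)} {φ : (Fin n → ℂ) → ℂ}
    (h : MemLp φ 2 (volume.restrict Ω)) : ‖(h.toLp φ : L2 Ω)‖ ^ 2 = ∫ z in Ω, ‖φ z‖ ^ 2 := by
  have h1 : inner ℂ (h.toLp φ : L2 Ω) (h.toLp φ) = ((‖(h.toLp φ : L2 Ω)‖ ^ 2 : ℝ) : ℂ) := by
    rw [inner_self_eq_norm_sq_to_K]; push_cast; rfl
  rw [inner_toLp] at h1
  have h2 : ∫ z in Ω, conj (φ z) * φ z = ((∫ z in Ω, ‖φ z‖ ^ 2 : ℝ) : ℂ) := by
    rw [← integral_complex_ofReal]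
    apply integral_congr_ae
    refine Eventually.of_forall fun z => ?_
    simp only
    rw [mul_comm, Complex.mul_conj, Complex.normSq_eq_norm_sq]
  rw [h2] at h1
  exact_mod_cast h1.symm

theorem norm_vec_sq {Ω : Set (Fin n → ℂ)} (hΩ : IsOpen Ω) {α : Fin n → ℤ} (hα : α ∈ Sset Ω) :
    ‖vec hΩ hα‖ ^ 2 = N Ω α := norm_toLp_sq hα.1

theorem N_pos {Ω : Set (Fin n → ℂ)} (hΩ : IsOpen Ω) (hne : Ω.Nonempty) {α : Fin n → ℤ}
    (hα : α ∈ Sset Ω) : 0 < N Ω α := by
  rw [N, integral_pos_iff_support_of_nonneg (fun z => by positivity) (integrable_sq hα.1)]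
  have h1 : (volume : Measure (Fin n → ℂ)) Ω ≠ 0 := (hΩ.measure_pos volume hne).ne'
  rw [pos_iff_ne_zero]
  intro h2
  apply h1
  have h3 : ∀ᵐ z ∂(volume.restrict Ω : Measure (Fin n → ℂ)), False := by
    have h4 : ∀ᵐ z ∂(volume.restrict Ω : Measure (Fin n → ℂ)),
        z ∉ Function.support (fun z : Fin n → ℂ => ‖mon α z‖ ^ 2) := measure_eq_zero_iff_ae_notMem.1 h2
    filter_upwards [h4, ae_good hΩ.measurableSet] with z h5 h6
    apply h5
    have := mon_ne_zero α h6.2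
    simp only [Function.mem_support]
    positivity
  have h7 := ae_iff.1 h3
  simpa using h7

section comp

variable {Ω : Set (Fin n → ℂ)} (hΩ : IsOpen Ω) (hc : IsPreconnected Ω) (hR : IsReinhardt Ω)
  {f : (Fin n → ℂ) → ℂ} (hf : DifferentiableOn ℂ f Ω) {T : bergman Ω →L[ℂ] L2 Ω}
  (hdense : Dense (hankelDomain Ω f)) (hT : ExtendsHankel Ω f T)
  {β : Fin n → ℤ} {a : ℂ} (ha : ∀ z ∈ Ω, (∀ j, z j ≠ 0) → avg β f z = a * mon β z)

include hΩ hc hR hf hdense hT ha

/-- the component of weight `α - β` of `T z^α` -/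
theorem exists_component {α : Fin n → ℤ} (hα : α ∈ Sset Ω) :
    ∃ (b : ℂ) (W : (Fin n → ℂ) → ℂ), MemLp W 2 (volume.restrict Ω) ∧
      (∀ z ∈ Ω, (∀ j, z j ≠ 0) → W z = conj a * (conj (mon β z) * mon α z) - b * mon (α - β) z) ∧
      ∫ z in Ω, ‖W z‖ ^ 2 ≤ ‖T (vec hΩ hα)‖ ^ 2 ∧
      (∃ G : (Fin n → ℂ) → ℂ, DifferentiableOn ℂ G Ω ∧
        ∀ z ∈ Ω, (∀ j, z j ≠ 0) → G z = b * mon (α - β) z) ∧
      (α - β ∈ Sset Ω → ∫ z in Ω, conj (mon (α - β) z) * W z = 0) := by
  obtain ⟨u, hu, hTu⟩ := exists_holo_part hΩ hf hdense hT (vec hΩ hα)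
  obtain ⟨b, hb⟩ := exists_avg_eq_mon hΩ hc hR hu (α - β)
  set φ : (Fin n → ℂ) → ℂ := fun z => conj (f z) * mon α z - u z with hφ
  have hTφ : T (vec hΩ hα) =ᵐ[volume.restrict Ω] φ := by
    filter_upwards [hTu, hα.1.coeFn_toLp] with z h1 h2
    rw [h1]
    simp only [hφ, vec]
    rw [h2]
  have hφm : MemLp φ 2 (volume.restrict Ω) := (Lp.memLp (T (vec hΩ hα))).ae_eq hTφ
  have hWm := avg_memLp hΩ.measurableSet hR hφm (α - β)
  refine ⟨b, avg (α - β) φ, hWm, ?_, ?_, ⟨avg (α - β) u, avg_differentiableOn hΩ hR hu _, hb⟩, ?_⟩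
  · intro z hz hz0
    rw [← hb z hz hz0]
    have e1 : conj a * (conj (mon β z) * mon α z) = mon α z * conj (avg β f z) := by
      rw [ha z hz hz0, map_mul]; ring
    rw [e1]
    simp only [avg]
    rw [← integral_conj, ← integral_const_mul, ← integral_sub]
    · apply integral_congr_ae
      refine Eventually.of_forall fun t => ?_
      simp only [hφ]
      rw [mon_act, map_mul, Complex.conj_conj]
      have h1 : conj (UnitAddTorus.mFourier (α - β) t) * UnitAddTorus.mFourier α t =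
          UnitAddTorus.mFourier β t := by
        rw [← UnitAddTorus.mFourier_neg, ← UnitAddTorus.mFourier_add]
        congr 2
        ring
      linear_combination (conj (f (act t z)) * mon α z) * h1
    · have h2 : Continuous (fun t : Tor n => f (act t z)) := by
        rw [← continuousOn_univ]
        refine hf.continuousOn.comp (t := Ω) ?_ (fun t _ => act_mem hR hz t)
        exact (continuous_act.comp (by fun_prop : Continuous fun t : Tor n => (t, z))).continuousOn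
      have h4 := (UnitAddTorus.mFourier (d := Fin n) β).continuous
      have h3 : Continuous (fun t : Tor n => mon α z *
          conj (conj (UnitAddTorus.mFourier β t) * f (act t z))) :=
        continuous_const.mul (Complex.continuous_conj.comp ((Complex.continuous_conj.comp h4).mul h2))
      exact h3.integrable_of_hasCompactSupport (HasCompactSupport.of_compactSpace _)
    · have h2 : Continuous (fun t : Tor n => u (act t z)) := by
        rw [← continuousOn_univ]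
        refine hu.continuousOn.comp (t := Ω) ?_ (fun t _ => act_mem hR hz t)
        exact (continuous_act.comp (by fun_prop : Continuous fun t : Tor n => (t, z))).continuousOn
      have h4 := (UnitAddTorus.mFourier (d := Fin n) (α - β)).continuous
      have h3 : Continuous (fun t : Tor n =>
          conj (UnitAddTorus.mFourier (α - β) t) * u (act t z)) :=
        (Complex.continuous_conj.comp h4).mul h2
      exact h3.integrable_of_hasCompactSupport (HasCompactSupport.of_compactSpace _)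
  · have h1 := lintegral_avg_le hΩ.measurableSet hR hφm.1 (α - β)
    have h2 : ∫⁻ z in Ω, ‖φ z‖ₑ ^ 2 = ENNReal.ofReal (‖T (vec hΩ hα)‖ ^ 2) := by
      rw [← lintegral_eq_norm_sq]
      apply lintegral_congr_ae
      filter_upwards [hTφ] with z hz
      rw [hz]
    have h3 : ∫⁻ z in Ω, ‖avg (α - β) φ z‖ₑ ^ 2 = ENNReal.ofReal (∫ z in Ω, ‖avg (α - β) φ z‖ ^ 2) := by
      rw [← norm_toLp_sq hWm, ← lintegral_eq_norm_sq]
      apply lintegral_congr_ae
      filter_upwards [hWm.coeFn_toLp] with z hz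
      rw [hz]
    rw [h2, h3] at h1
    exact (ENNReal.ofReal_le_ofReal_iff (by positivity)).1 h1
  · intro hαβ
    have h1 := inner_eq_zero hdense hT (vec hΩ hα) (vec hΩ hαβ).2
    have h2 : T (vec hΩ hα) = hφm.toLp φ := by
      apply Lp.ext
      filter_upwards [hTφ, hφm.coeFn_toLp] with z h3 h4
      rw [h3, h4]
    rw [h2] at h1
    have h3 : ((vec hΩ hαβ : bergman Ω) : L2 Ω) = hαβ.1.toLp _ := rfl
    rw [h3, inner_toLp] at h1
    rw [← h1]
    symm
    apply integral_avg hΩ.measurableSet hR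
    · exact hαβ.1.star.integrable_mul hφm
    · intro t z _
      exact mon_act _ t z

omit hdense hT in
theorem mem_of_memLp (ha0 : a ≠ 0) {α : Fin n → ℤ} (hα : α ∈ Sset Ω)
    (h : MemLp (mon (α + β)) 2 (volume.restrict Ω)) : α + β ∈ Sset Ω := by
  refine ⟨h, ?_⟩
  obtain ⟨G, hG, hGe⟩ := hα.2
  refine ⟨fun z => G z * (a⁻¹ * avg β f z), hG.mul ((avg_differentiableOn hΩ hR hf β).const_mul _), ?_⟩
  intro z hz hz0
  simp only
  rw [hGe z hz hz0, ha z hz hz0, mon_add α β hz0]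
  field_simp

omit hc hR hf hdense hT ha in
theorem memLp_conj {α : Fin n → ℤ} :
    MemLp (fun z => conj (mon β z) * mon α z) 2 (volume.restrict Ω) ↔
      MemLp (mon (α + β)) 2 (volume.restrict Ω) := by
  have hm1 : AEStronglyMeasurable (fun z : Fin n → ℂ => conj (mon β z) * mon α z) (volume.restrict Ω) := by
    apply Measurable.aestronglyMeasurable
    exact (Complex.continuous_conj.measurable.comp (measurable_mon β)).mul (measurable_mon α)
  refine memLp_congr_norm hm1 (measurable_mon _).aestronglyMeasurable ?_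
  filter_upwards [ae_good hΩ.measurableSet] with z hz
  rw [norm_mul, RCLike.norm_conj, mon_add α β hz.2, norm_mul, mul_comm]

omit hc hR hf hdense hT ha in
theorem integral_conj_sq {α : Fin n → ℤ} :
    ∫ z in Ω, ‖conj (mon β z) * mon α z‖ ^ 2 = N Ω (α + β) := by
  rw [N]
  apply integral_congr_ae
  filter_upwards [ae_good hΩ.measurableSet] with z hz
  rw [norm_mul, RCLike.norm_conj, mon_add α β hz.2, norm_mul, mul_comm]

/-- upward closedness -/
theorem up_mem (ha0 : a ≠ 0) {α : Fin n → ℤ} (hα : α ∈ Sset Ω) (hα' : α - β ∈ Sset Ω) :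
    α + β ∈ Sset Ω := by
  obtain ⟨b, W, hW, hWe, -, -, -⟩ := exists_component hΩ hc hR hf hdense hT ha hα
  apply mem_of_memLp hΩ hc hR hf ha ha0 hα
  rw [← memLp_conj hΩ]
  have h1 : MemLp (fun z => (conj a)⁻¹ * (W z + b * mon (α - β) z)) 2 (volume.restrict Ω) :=
    (hW.add (hα'.1.const_mul b)).const_mul _
  refine h1.ae_eq ?_
  filter_upwards [ae_good hΩ.measurableSet] with z hz
  rw [hWe z hz.1 hz.2]
  have h2 : conj a ≠ 0 := by simpa using ha0
  field_simp
  ring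

/-- lower bound, first element of a line -/
theorem lower_first (ha0 : a ≠ 0) {α : Fin n → ℤ} (hα : α ∈ Sset Ω) (hα1 : α + β ∈ Sset Ω)
    (hα' : α - β ∉ Sset Ω) : ‖a‖ ^ 2 * N Ω (α + β) ≤ ‖T (vec hΩ hα)‖ ^ 2 := by
  obtain ⟨b, W, hW, hWe, hWn, hG, -⟩ := exists_component hΩ hc hR hf hdense hT ha hα
  have h1 := (memLp_conj hΩ).2 hα1.1
  have hb : b = 0 := by
    by_contra hb
    apply hα'
    constructor
    · have h2 : MemLp (fun z => b⁻¹ * (conj a * (conj (mon β z) * mon α z) - W z)) 2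
          (volume.restrict Ω) := ((h1.const_mul (conj a)).sub hW).const_mul _
      refine h2.ae_eq ?_
      filter_upwards [ae_good hΩ.measurableSet] with z hz
      rw [hWe z hz.1 hz.2]
      field_simp
      ring
    · obtain ⟨G, hG, hGe⟩ := hG
      refine ⟨fun z => b⁻¹ * G z, hG.const_mul _, fun z hz hz0 => ?_⟩
      simp only
      rw [hGe z hz hz0]
      field_simp
  refine le_trans (le_of_eq ?_) hWn
  rw [← integral_conj_sq hΩ, ← integral_const_mul]
  apply integral_congr_ae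
  filter_upwards [ae_good hΩ.measurableSet] with z hz
  rw [hWe z hz.1 hz.2, hb, zero_mul, sub_zero, norm_mul (conj a), RCLike.norm_conj, mul_pow]

omit hΩ hc hR hf hdense hT ha in
theorem abstract_pyth {E : Type*} [NormedAddCommGroup E] [InnerProductSpace ℂ E] {w p1 p2 : E} {a b : ℂ}
    {m : ℝ} (hw : w = conj a • p1 - b • p2) (h0 : inner ℂ p2 w = 0) (h1 : inner ℂ p2 p1 = (m : ℂ))
    (hp2 : p2 ≠ 0) : ‖w‖ ^ 2 = ‖a‖ ^ 2 * (‖p1‖ ^ 2 - m ^ 2 / ‖p2‖ ^ 2) := by
  have hn : (‖p2‖ : ℂ) ≠ 0 := by exact_mod_cast (norm_ne_zero_iff.2 hp2)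
  have h2 : inner ℂ p1 p2 = (m : ℂ) := by
    rw [← inner_conj_symm, h1, Complex.conj_ofReal]
  have h3 : conj a * m - b * (‖p2‖ : ℂ) ^ 2 = 0 := by
    rw [hw, inner_sub_right, inner_smul_right, inner_smul_right, h1, inner_self_eq_norm_sq_to_K] at h0
    exact h0
  have hb : b = conj a * m / (‖p2‖ : ℂ) ^ 2 := by
    field_simp
    linear_combination -h3
  have h4 : inner ℂ w w = ((‖w‖ ^ 2 : ℝ) : ℂ) := by
    rw [inner_self_eq_norm_sq_to_K]; push_cast; rfl
  have h5 : inner ℂ w w = a * (conj a * (‖p1‖ : ℂ) ^ 2 - b * m) := by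
    conv_lhs => rw [hw]
    rw [inner_sub_left, inner_smul_left, inner_smul_left, Complex.conj_conj]
    rw [← hw, h0, mul_zero, sub_zero]
    congr 1
    rw [hw, inner_sub_right, inner_smul_right, inner_smul_right, h2, inner_self_eq_norm_sq_to_K]
    rfl
  have h6 : ((‖w‖ ^ 2 : ℝ) : ℂ) = ((‖a‖ ^ 2 * (‖p1‖ ^ 2 - m ^ 2 / ‖p2‖ ^ 2) : ℝ) : ℂ) := by
    rw [← h4, h5, hb]
    have h7 : a * conj a = (‖a‖ : ℂ) ^ 2 := by
      rw [Complex.mul_conj, Complex.normSq_eq_norm_sq]; push_cast; rfl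
    push_cast
    rw [← h7]
    field_simp
  exact_mod_cast h6

/-- lower bound, general element of a line -/
theorem lower_gen {α : Fin n → ℤ} (hne : Ω.Nonempty) (hα : α ∈ Sset Ω) (hα1 : α + β ∈ Sset Ω)
    (hα' : α - β ∈ Sset Ω) :
    ‖a‖ ^ 2 * (N Ω (α + β) - N Ω α ^ 2 / N Ω (α - β)) ≤ ‖T (vec hΩ hα)‖ ^ 2 := by
  obtain ⟨b, W, hW, hWe, hWn, -, hWo⟩ := exists_component hΩ hc hR hf hdense hT ha hα
  have h1 := (memLp_conj hΩ).2 hα1.1
  have h0 := hWo hα'
  refine le_trans (le_of_eq ?_) hWn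
  rw [← norm_toLp_sq hW]
  have hw : (hW.toLp W : L2 Ω) = conj a • (h1.toLp _ : L2 Ω) - b • (hα'.1.toLp _ : L2 Ω) := by
    rw [← MemLp.toLp_const_smul, ← MemLp.toLp_const_smul, ← MemLp.toLp_sub]
    rw [MemLp.toLp_eq_toLp_iff]
    filter_upwards [ae_good hΩ.measurableSet] with z hz
    rw [hWe z hz.1 hz.2]
    simp
  have hp : (hα'.1.toLp _ : L2 Ω) ≠ 0 := by
    have h3 := N_pos hΩ hne hα'
    rw [N, ← norm_toLp_sq hα'.1] at h3
    intro h4
    rw [h4, norm_zero] at h3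
    norm_num at h3
  have h5 : inner ℂ (hα'.1.toLp _ : L2 Ω) (h1.toLp _ : L2 Ω) = ((N Ω α : ℝ) : ℂ) := by
    rw [inner_toLp, N, ← integral_complex_ofReal]
    apply integral_congr_ae
    filter_upwards [ae_good hΩ.measurableSet] with z hz
    have h6 : mon α z = mon (α - β) z * mon β z := by rw [← mon_add _ _ hz.2, sub_add_cancel]
    have h7 : mon α z * conj (mon α z) = ((‖mon α z‖ ^ 2 : ℝ) : ℂ) := by
      rw [Complex.mul_conj, Complex.normSq_eq_norm_sq]
    have h8 : conj (mon α z) = conj (mon (α - β) z) * conj (mon β z) := by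
      conv_lhs => rw [h6]
      rw [map_mul]
    rw [← h7, h8]
    ring
  rw [abstract_pyth hw (by rw [inner_toLp]; exact h0) h5 hp, norm_toLp_sq h1, norm_toLp_sq hα'.1,
    integral_conj_sq hΩ]
  rfl

end comp

end Pool.Agent.W738.HS
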