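import Pool.Agent.W738.HS.Stmt

/-!
Auxiliary definitions: Bergman spaces and Hankel operators on open subsets of `ℂⁿ` (second form).
-/

set_option autoImplicit false

open MeasureTheory
open scoped ComplexConjugate

namespace Pool.Agent.W738.HS

variable {n : ℕ}

/-- The space `L²(Ω)` with respect to Lebesgue measure. -/
abbrev L2 (Ω : Set (Fin n → ℂ)) : Type := Lp ℂ 2 (volume.restrict Ω : Measure (Fin n → ℂ))

/-- The Bergman space `A²(Ω)`: the classes in `L²(Ω)` which have a holomorphic representative. It is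
closed in `L²(Ω)` for open `Ω`, see `isClosed_bergman`. -/
def bergman (Ω : Set (Fin n → ℂ)) : Submodule ℂ (L2 Ω) where
  carrier := {g | ∃ G : (Fin n → ℂ) → ℂ, DifferentiableOn ℂ G Ω ∧ g =ᵐ[volume.restrict Ω] G}
  add_mem' := by
    rintro g h ⟨G, hG, hgG⟩ ⟨H, hH, hhH⟩
    refine ⟨G + H, hG.add hH, ?_⟩
    filter_upwards [Lp.coeFn_add g h, hgG, hhH] with z h1 h2 h3
    rw [h1, Pi.add_apply, Pi.add_apply, h2, h3]
  zero_mem' := ⟨0, differentiableOn_const 0, Lp.coeFn_zero _ _ _⟩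
  smul_mem' := by
    rintro c g ⟨G, hG, hgG⟩
    refine ⟨c • G, hG.const_smul c, ?_⟩
    filter_upwards [Lp.coeFn_smul c g, hgG] with z h1 h2
    rw [h1, Pi.smul_apply, Pi.smul_apply, h2]

/-- The domain of `H_{f̄}`: all `g` in `A²(Ω)` with `f̄ g` in `L²(Ω)`. -/
def hankelDomain (Ω : Set (Fin n → ℂ)) (f : (Fin n → ℂ) → ℂ) : Set (bergman Ω) :=
  {g | MemLp (fun z => conj (f z) * (g : L2 Ω) z) 2 (volume.restrict Ω)}

/-- The bounded operator `T : A²(Ω) → L²(Ω)` extends `H_{f̄}`: one has `T g = (I - P) (f̄ g)` for all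
`g` in the domain, where `P` is the orthogonal projection of `L²(Ω)` onto (the closure of)
`A²(Ω)`. -/
def ExtendsHankel (Ω : Set (Fin n → ℂ)) (f : (Fin n → ℂ) → ℂ) (T : bergman Ω →L[ℂ] L2 Ω) : Prop :=
  ∀ (g : bergman Ω) (hg : MemLp (fun z => conj (f z) * (g : L2 Ω) z) 2 (volume.restrict Ω)),
    T g = hg.toLp _ - (bergman Ω).topologicalClosure.starProjection (hg.toLp _)

/-- `T` is Hilbert-Schmidt: `∑ ‖T e_k‖² < ∞` for an orthonormal basis `(e_k)` of `A²(Ω)`. -/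
def IsHilbertSchmidt {Ω : Set (Fin n → ℂ)} (T : bergman Ω →L[ℂ] L2 Ω) : Prop :=
  ∃ (ι : Type) (b : HilbertBasis ι ℂ (bergman Ω)), Summable fun i => ‖T (b i)‖ ^ 2

end Pool.Agent.W738.HS
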