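import Pool.Agent.W738.HS.Main

/-!
The theorem on Hilbert-Schmidt Hankel operators: end of the proof.
-/

set_option autoImplicit false

open MeasureTheory Topology Filter Set Metric
open scoped ENNReal NNReal ContDiff ComplexConjugate

namespace Pool.Agent.W738.HS

variable {n : ℕ}

theorem mem_Sset_of_nonneg {Ω : Set (Fin n → ℂ)} (hΩ : IsOpen Ω) (hb : Bornology.IsBounded Ω)
    {α : Fin n → ℤ} (hα : ∀ j, 0 ≤ α j) : α ∈ Sset Ω := by
  have hG : ∀ z : Fin n → ℂ, mon α z = ∏ j, z j ^ (α j).toNat := by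
    intro z
    unfold mon
    apply Finset.prod_congr rfl
    intro j _
    conv_lhs => rw [← Int.toNat_of_nonneg (hα j)]
    rw [zpow_natCast]
  have hfin : IsFiniteMeasure (volume.restrict Ω : Measure (Fin n → ℂ)) :=
    ⟨by rw [Measure.restrict_apply_univ]; exact hb.measure_lt_top⟩
  have hcont : Continuous (mon α : (Fin n → ℂ) → ℂ) := by
    have : (mon α : (Fin n → ℂ) → ℂ) = fun z => ∏ j, z j ^ (α j).toNat := funext hG
    rw [this]
    fun_prop
  refine ⟨?_, mon α, ?_, fun z _ _ => rfl⟩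
  · obtain ⟨C, hC⟩ := hb.isCompact_closure.exists_bound_of_continuousOn hcont.continuousOn
    refine MemLp.of_bound hcont.aestronglyMeasurable C ?_
    filter_upwards [ae_restrict_mem hΩ.measurableSet] with z hz
    exact hC z (subset_closure hz)
  · intro z _
    apply DifferentiableAt.differentiableWithinAt
    have : (mon α : (Fin n → ℂ) → ℂ) = fun z => ∏ j, z j ^ (α j).toNat := funext hG
    rw [this]
    exact diff_prod _ (fun j _ => by fun_prop)

/-- the normalised monomials -/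
noncomputable def ev {Ω : Set (Fin n → ℂ)} (hΩ : IsOpen Ω) (α : {α // α ∈ Sset Ω}) : bergman Ω :=
  ((‖vec hΩ α.2‖⁻¹ : ℝ) : ℂ) • vec hΩ α.2

theorem ev_orthonormal {Ω : Set (Fin n → ℂ)} (hΩ : IsOpen Ω) (hR : IsReinhardt Ω)
    (hne : Ω.Nonempty) : Orthonormal ℂ (ev hΩ) := by
  have hpos : ∀ α : {α // α ∈ Sset Ω}, 0 < ‖vec hΩ α.2‖ := by
    intro α
    have h1 := N_pos hΩ hne α.2
    rw [← norm_vec_sq hΩ α.2] at h1
    rcases (norm_nonneg (vec hΩ α.2)).lt_or_eq with h | h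
    · exact h
    · rw [← h] at h1; norm_num at h1
  constructor
  · intro α
    rw [ev, norm_smul, Complex.norm_real, norm_inv, norm_norm, inv_mul_cancel₀ (hpos α).ne']
  · intro α α' hne'
    have h1 := inner_vec_eq_zero hΩ hR α.2 α'.2 (fun h => hne' (Subtype.ext h))
    have h2 : inner ℂ (ev hΩ α) (ev hΩ α') = 0 := by
      rw [ev, ev]
      have h3 := inner_smul_left (𝕜 := ℂ) (vec hΩ α.2) (((‖vec hΩ α'.2‖⁻¹ : ℝ) : ℂ) • vec hΩ α'.2)
        ((‖vec hΩ α.2‖⁻¹ : ℝ) : ℂ)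
      have h4 := inner_smul_right (𝕜 := ℂ) (vec hΩ α.2) (vec hΩ α'.2) ((‖vec hΩ α'.2‖⁻¹ : ℝ) : ℂ)
      rw [h3, h4, h1, mul_zero, mul_zero]
    exact h2

theorem norm_T_ev {Ω : Set (Fin n → ℂ)} (hΩ : IsOpen Ω) (T : bergman Ω →L[ℂ] L2 Ω)
    (α : {α // α ∈ Sset Ω}) : ‖T (ev hΩ α)‖ ^ 2 = D hΩ T α := by
  rw [ev, map_smul, norm_smul, Complex.norm_real, norm_inv, norm_norm, mul_pow, D, dif_pos α.2,
    ← norm_vec_sq hΩ α.2, inv_pow, div_eq_inv_mul]

theorem mon_update_norm {p : Fin n → ℂ} (hp : ∀ j, p j ≠ 0) (β : Fin n → ℤ) (j : Fin n) {s : ℝ} (hs : 0 < s) :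
    ‖mon β (Function.update p j (s * p j))‖ ^ 2 = (s ^ β j) ^ 2 * ‖mon β p‖ ^ 2 := by
  have h1 : mon β (Function.update p j (s * p j)) = (s : ℂ) ^ β j * mon β p := by
    simp only [mon]
    rw [← Finset.mul_prod_erase Finset.univ _ (Finset.mem_univ j),
      ← Finset.mul_prod_erase Finset.univ (fun i => p i ^ β i) (Finset.mem_univ j)]
    rw [Function.update_self, mul_zpow, mul_assoc]
    congr 2
    apply Finset.prod_congr rfl
    intro i hi
    rw [Function.update_of_ne (Finset.ne_of_mem_erase hi)]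
  rw [h1, norm_mul, mul_pow, norm_zpow, Complex.norm_real, Real.norm_of_nonneg hs.le]

theorem exists_two_values {Ω : Set (Fin n → ℂ)} (hΩ : IsOpen Ω) (hne : Ω.Nonempty) {β : Fin n → ℤ}
    (hβ : β ≠ 0) : ∃ z₁ ∈ Ω, ∃ z₂ ∈ Ω, (∀ j, z₁ j ≠ 0) ∧ (∀ j, z₂ j ≠ 0) ∧
      ‖mon β z₁‖ ^ 2 < ‖mon β z₂‖ ^ 2 := by
  obtain ⟨p, hp, hp0⟩ := exists_nz hΩ hne
  obtain ⟨j, hj⟩ := Function.ne_iff.1 hβ
  rw [Pi.zero_apply] at hj
  -- a nearby point
  have hcont : Continuous (fun s : ℝ => Function.update p j ((s : ℂ) * p j)) := by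
    apply Continuous.update continuous_const
    fun_prop
  have h1 : ∀ᶠ s : ℝ in 𝓝 1, Function.update p j ((s : ℂ) * p j) ∈ Ω := by
    refine hcont.continuousAt.eventually_mem (hΩ.mem_nhds ?_)
    simpa using hp
  obtain ⟨ε, hε, hball⟩ := Metric.eventually_nhds_iff.1 h1
  set s : ℝ := 1 + ε / 2 with hs
  have hs1 : 1 < s := by linarith
  have hs0 : 0 < s := by linarith
  have hq : Function.update p j ((s : ℂ) * p j) ∈ Ω := hball (by
    rw [Real.dist_eq, hs, add_sub_cancel_left, abs_of_pos (by positivity)]; linarith)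
  have hq0 : ∀ i, Function.update p j ((s : ℂ) * p j) i ≠ 0 := by
    intro i
    by_cases hij : i = j
    · subst hij
      rw [Function.update_self]
      exact mul_ne_zero (by exact_mod_cast hs0.ne') (hp0 i)
    · rw [Function.update_of_ne hij]; exact hp0 i
  have hval := mon_update_norm hp0 β j hs0
  have hmp : 0 < ‖mon β p‖ ^ 2 := by
    have := mon_ne_zero β hp0
    positivity
  rcases lt_or_gt_of_ne hj with h | h
  · refine ⟨_, hq, p, hp, hq0, hp0, ?_⟩
    rw [hval]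
    have h2 : s ^ β j < 1 := zpow_lt_one_of_neg₀ hs1 h
    have h3 : 0 < s ^ β j := zpow_pos hs0 _
    have h4 : (s ^ β j) ^ 2 < 1 := by nlinarith
    nlinarith
  · refine ⟨p, hp, _, hq, hp0, hq0, ?_⟩
    rw [hval]
    have h2 : 1 < s ^ β j := one_lt_zpow₀ hs1 h
    have h4 : 1 < (s ^ β j) ^ 2 := by nlinarith
    nlinarith

theorem continuousOn_norm_mon (β : Fin n → ℤ) :
    ContinuousOn (fun z : Fin n → ℂ => ‖mon β z‖ ^ 2) {z | ∀ j, z j ≠ 0} := by
  apply ContinuousOn.pow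
  apply ContinuousOn.norm
  unfold mon
  apply continuousOn_finsetProd
  intro j _ z hz
  apply ContinuousAt.continuousWithinAt
  exact (continuous_apply j).continuousAt.zpow₀ _ (Or.inl (hz j))

/-- the Fourier coefficients of the symbol vanish -/
theorem coeff_eq_zero (hn : 2 ≤ n) {Ω : Set (Fin n → ℂ)} (hΩ : IsOpen Ω) (hc : IsPreconnected Ω)
    (hR : IsReinhardt Ω) (hb : Bornology.IsBounded Ω) (hne : Ω.Nonempty) {f : (Fin n → ℂ) → ℂ}
    (hf : DifferentiableOn ℂ f Ω) {T : bergman Ω →L[ℂ] L2 Ω}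
    (hdense : Dense (hankelDomain Ω f)) (hT : ExtendsHankel Ω f T) (hHS : IsHilbertSchmidt T)
    {β : Fin n → ℤ} (hβ : β ≠ 0) {a : ℂ}
    (ha : ∀ z ∈ Ω, (∀ j, z j ≠ 0) → avg β f z = a * mon β z) : a = 0 := by
  by_contra ha0
  obtain ⟨z₁, hz₁, z₂, hz₂, hz₁0, hz₂0, hlt⟩ := exists_two_values hΩ hne hβ
  set x := ‖mon β z₁‖ ^ 2 with hx
  set y := ‖mon β z₂‖ ^ 2 with hy
  have hx0 : 0 < x := by
    have := mon_ne_zero β hz₁0
    positivity
  set A : Set (Fin n → ℂ) := Ω ∩ ({z | ∀ j, z j ≠ 0} ∩ (fun z => ‖mon β z‖ ^ 2) ⁻¹' Ioi (x + 4 * (y - x) / 5)) with hA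
  set B : Set (Fin n → ℂ) := Ω ∩ ({z | ∀ j, z j ≠ 0} ∩ (fun z => ‖mon β z‖ ^ 2) ⁻¹' Iio (x + (y - x) / 5)) with hB
  have hAo : IsOpen A := hΩ.inter ((continuousOn_norm_mon β).isOpen_inter_preimage isOpen_nz isOpen_Ioi)
  have hBo : IsOpen B := hΩ.inter ((continuousOn_norm_mon β).isOpen_inter_preimage isOpen_nz isOpen_Iio)
  have hAne : A.Nonempty := ⟨z₂, hz₂, hz₂0, by simp only [mem_preimage, mem_Ioi]; linarith⟩
  have hBne : B.Nonempty := ⟨z₁, hz₁, hz₁0, by simp only [mem_preimage, mem_Iio]; linarith⟩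
  obtain ⟨j, hj⟩ := Function.ne_iff.1 hβ
  rw [Pi.zero_apply] at hj
  obtain ⟨i, hij⟩ : ∃ i : Fin n, i ≠ j := by
    have : Nontrivial (Fin n) := Fin.nontrivial_iff_two_le.2 hn
    exact exists_ne j
  classical
  set α : ℕ → (Fin n → ℤ) := fun l => (fun k => max (-β k) 0) + (l : ℤ) • Pi.single i 1 with hα
  have hα1 : ∀ l, α l ∈ Sset Ω := by
    intro l
    apply mem_Sset_of_nonneg hΩ hb
    intro k
    simp only [hα, Pi.add_apply, Pi.smul_apply, smul_eq_mul]
    have h1 : (0 : ℤ) ≤ (Pi.single i 1 : Fin n → ℤ) k := by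
      by_cases hk : k = i
      · subst hk; simp
      · rw [Pi.single_eq_of_ne hk]
    positivity
  have hα2 : ∀ l, α l + β ∈ Sset Ω := by
    intro l
    apply mem_Sset_of_nonneg hΩ hb
    intro k
    simp only [hα, Pi.add_apply, Pi.smul_apply, smul_eq_mul]
    have h1 : (0 : ℤ) ≤ (l : ℤ) * (Pi.single i 1 : Fin n → ℤ) k := by
      by_cases hk : k = i
      · subst hk; simp
      · rw [Pi.single_eq_of_ne hk]; simp
    have h2 : -β k ≤ max (-β k) 0 := le_max_left _ _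
    linarith
  have hline : ∀ l, ∃ F : Finset ℤ, (∀ k ∈ F, α l + k • β ∈ Sset Ω) ∧
      ‖a‖ ^ 2 * ((x + 3 * (y - x) / 5) - (x + 2 * (y - x) / 5)) ≤ ∑ k ∈ F, D hΩ T (α l + k • β) := by
    intro l
    refine line_bound hΩ hc hR hne hf hdense hT ha0 ha (a₁ := x + 4 * (y - x) / 5)
      (b₁ := x + (y - x) / 5) (by linarith) (by linarith) (by linarith) (by linarith)
      hAo.measurableSet inter_subset_left (hAo.measure_pos volume hAne).ne'
      hBo.measurableSet inter_subset_left (hBo.measure_pos volume hBne).ne' ?_ ?_ (hα1 l) (hα2 l)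
    · intro z hz _
      exact (le_of_lt hz.2.2)
    · intro z hz _
      exact (le_of_lt hz.2.2)
  choose F hF1 hF2 using hline
  set δ := ‖a‖ ^ 2 * ((x + 3 * (y - x) / 5) - (x + 2 * (y - x) / 5)) with hδ
  have hδ0 : 0 < δ := by
    have h1 : 0 < ‖a‖ ^ 2 := by
      have := norm_pos_iff.2 ha0
      positivity
    have h2 : 0 < (x + 3 * (y - x) / 5) - (x + 2 * (y - x) / 5) := by linarith
    exact mul_pos h1 h2
  obtain ⟨ι, b, hs⟩ := hHS
  have hcomp : CompleteSpace (bergman Ω) := (isClosed_bergman hΩ).completeSpace_coe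
  have hinj : ∀ l l' : ℕ, ∀ k k' : ℤ, α l + k • β = α l' + k' • β → l = l' ∧ k = k' := by
    intro l l' k k' h
    have h1 := congrFun h j
    simp only [hα, Pi.add_apply, Pi.smul_apply, smul_eq_mul, Pi.single_eq_of_ne hij.symm, mul_zero,
      add_zero] at h1
    have h2 : k = k' := by
      have h3 : k * β j = k' * β j := by linarith
      exact mul_right_cancel₀ hj h3
    subst h2
    have h4 := congrFun h i
    simp only [hα, Pi.add_apply, Pi.smul_apply, smul_eq_mul, Pi.single_eq_same, mul_one] at h4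
    have h5 : (l : ℤ) = l' := by linarith
    exact ⟨by exact_mod_cast h5, rfl⟩
  have hM : ∀ M : ℕ, M * δ ≤ ∑' i, ‖T (b i)‖ ^ 2 := by
    intro M
    set t : Finset (Fin n → ℤ) := (Finset.range M).biUnion
      (fun l => (F l).image (fun k => α l + k • β)) with ht
    have htS : ∀ γ ∈ t, γ ∈ Sset Ω := by
      intro γ hγ
      obtain ⟨l, -, hl⟩ := Finset.mem_biUnion.1 hγ
      obtain ⟨k, hk, rfl⟩ := Finset.mem_image.1 hl
      exact hF1 l k hk
    have hsum : ∑ γ ∈ t, D hΩ T γ = ∑ l ∈ Finset.range M, ∑ k ∈ F l, D hΩ T (α l + k • β) := by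
      rw [ht, Finset.sum_biUnion]
      · apply Finset.sum_congr rfl
        intro l _
        rw [Finset.sum_image]
        intro k _ k' _ h
        exact (hinj l l k k' h).2
      · intro l _ l' _ hll'
        rw [Function.onFun, Finset.disjoint_left]
        intro γ h1 h2
        obtain ⟨k, -, hk⟩ := Finset.mem_image.1 h1
        obtain ⟨k', -, hk'⟩ := Finset.mem_image.1 h2
        exact hll' (hinj l l' k k' (hk.trans hk'.symm)).1
    have h1 : (M : ℝ) * δ ≤ ∑ γ ∈ t, D hΩ T γ := by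
      rw [hsum]
      calc (M : ℝ) * δ = ∑ l ∈ Finset.range M, δ := by simp
        _ ≤ _ := Finset.sum_le_sum fun l _ => hF2 l
    refine h1.trans ?_
    have h2 := hs_bound T b hs (ev_orthonormal hΩ hR hne) (t.subtype (· ∈ Sset Ω))
    refine le_trans (le_of_eq ?_) h2
    simp only [norm_T_ev]
    exact (Finset.sum_subtype_of_mem (fun γ => D hΩ T γ) htS).symm
  obtain ⟨M, hM'⟩ := exists_nat_gt ((∑' i, ‖T (b i)‖ ^ 2) / δ)
  rw [div_lt_iff₀ hδ0] at hM'
  exact absurd (hM M) (not_le.2 hM')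

/-- a holomorphic function all of whose components of nonzero weight vanish is constant -/
theorem const_of_coeff {Ω : Set (Fin n → ℂ)} (hΩ : IsOpen Ω) (hc : IsPreconnected Ω)
    (hR : IsReinhardt Ω) {f : (Fin n → ℂ) → ℂ} (hf : DifferentiableOn ℂ f Ω)
    (h : ∀ β : Fin n → ℤ, β ≠ 0 → ∀ z ∈ Ω, (∀ j, z j ≠ 0) → avg β f z = 0) :
    ∃ c : ℂ, ∀ z ∈ Ω, f z = c := by
  obtain ⟨a, ha⟩ := exists_avg_eq_mon hΩ hc hR hf 0
  refine ⟨a, ?_⟩
  have key : ∀ z ∈ Ω, (∀ j, z j ≠ 0) → f z = a := by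
    intro z hz hz0
    have h2 : Continuous (fun t : Tor n => f (act t z)) := by
      rw [← continuousOn_univ]
      refine hf.continuousOn.comp (t := Ω) ?_ (fun t _ => act_mem hR hz t)
      exact (continuous_act.comp (by fun_prop : Continuous fun t : Tor n => (t, z))).continuousOn
    have h3 : ∀ γ : Fin n → ℤ, UnitAddTorus.mFourierCoeff (fun t : Tor n => f (act t z)) γ = avg γ f z := by
      intro γ
      simp only [UnitAddTorus.mFourierCoeff, avg, smul_eq_mul, UnitAddTorus.mFourier_neg]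
      rfl
    have h4 : ∀ γ : Fin n → ℤ, γ ≠ 0 →
        UnitAddTorus.mFourierCoeff (⟨fun t : Tor n => f (act t z), h2⟩ : C(Tor n, ℂ)) γ = 0 := by
      intro γ hγ
      exact (h3 γ).trans (h γ hγ z hz hz0)
    have h5 : Summable (UnitAddTorus.mFourierCoeff (⟨fun t : Tor n => f (act t z), h2⟩ : C(Tor n, ℂ))) :=
      summable_of_ne_finset_zero (s := {0}) (fun γ hγ => h4 γ (by simpa using hγ))
    have h6 := UnitAddTorus.hasSum_mFourier_series_apply_of_summable h5 0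
    have h7 : HasSum (fun γ : Fin n → ℤ =>
        UnitAddTorus.mFourierCoeff (⟨fun t : Tor n => f (act t z), h2⟩ : C(Tor n, ℂ)) γ •
          UnitAddTorus.mFourier γ (0 : Tor n))
        (UnitAddTorus.mFourierCoeff (⟨fun t : Tor n => f (act t z), h2⟩ : C(Tor n, ℂ)) 0 •
          UnitAddTorus.mFourier 0 (0 : Tor n)) := by
      apply hasSum_single
      intro γ hγ
      rw [h4 γ hγ, zero_smul]
    have h8 := h6.unique h7
    simp only [ContinuousMap.coe_mk, act_zero, UnitAddTorus.mFourier_zero, ContinuousMap.one_apply,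
      smul_eq_mul, mul_one] at h8
    rw [h8]
    exact (h3 0).trans (by rw [ha z hz hz0, mon_zero, mul_one])
  intro z hz
  by_contra hne
  have h1 : IsOpen (Ω ∩ f ⁻¹' {a}ᶜ) := hf.continuousOn.isOpen_inter_preimage hΩ isOpen_compl_singleton
  obtain ⟨w, hw, hw0⟩ := exists_nz h1 ⟨z, hz, hne⟩
  exact hw.2 (key w hw.1 hw0)

theorem main (hn : 2 ≤ n) (Ω : Set (Fin n → ℂ)) (hΩ : IsOpen Ω) (hc : IsConnected Ω)
    (hb : Bornology.IsBounded Ω) (hR : IsReinhardt Ω) (f : (Fin n → ℂ) → ℂ)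
    (hf : DifferentiableOn ℂ f Ω) (T : bergman Ω →L[ℂ] L2 Ω)
    (hdense : Dense (hankelDomain Ω f)) (hT : ExtendsHankel Ω f T) (hHS : IsHilbertSchmidt T) :
    T = 0 ∧ ∃ c : ℂ, ∀ z ∈ Ω, f z = c := by
  have hcst : ∃ c : ℂ, ∀ z ∈ Ω, f z = c := by
    apply const_of_coeff hΩ hc.isPreconnected hR hf
    intro β hβ z hz hz0
    obtain ⟨a, ha⟩ := exists_avg_eq_mon hΩ hc.isPreconnected hR hf β
    have h1 := coeff_eq_zero hn hΩ hc.isPreconnected hR hb hc.nonempty hf hdense hT hHS hβ ha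
    rw [ha z hz hz0, h1, zero_mul]
  refine ⟨?_, hcst⟩
  obtain ⟨c, hcf⟩ := hcst
  have h1 : ∀ g ∈ hankelDomain Ω f, T g = 0 := by
    intro g hg
    rw [hT g hg]
    have h2 : (hg.toLp _ : L2 Ω) = conj c • (g : L2 Ω) := by
      apply Lp.ext
      filter_upwards [hg.coeFn_toLp, Lp.coeFn_smul (conj c) (g : L2 Ω), ae_good hΩ.measurableSet]
        with z h3 h4 h5
      rw [h3, h4, Pi.smul_apply, hcf z h5.1, smul_eq_mul]
    have h3 : (hg.toLp _ : L2 Ω) ∈ (bergman Ω).topologicalClosure := by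
      rw [h2]
      exact (bergman Ω).le_topologicalClosure ((bergman Ω).smul_mem _ g.2)
    rw [Submodule.starProjection_eq_self_iff.2 h3, sub_self]
  ext1 g
  have h2 : IsClosed {g : bergman Ω | T g = 0} := isClosed_eq T.continuous continuous_const
  exact h2.closure_subset_iff.2 h1 (hdense g)

theorem A2_eq_bergman (Ω : Set (Fin n → ℂ)) :
    A2 (volume.restrict Ω) {G | DifferentiableOn ℂ G Ω} = bergman Ω := by
  have : {g : L2 Ω | ∃ G ∈ {G : (Fin n → ℂ) → ℂ | DifferentiableOn ℂ G Ω},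
      g =ᵐ[volume.restrict Ω] G} = (bergman Ω : Set (L2 Ω)) := by
    ext g
    rfl
  rw [A2, this, Submodule.span_eq]

theorem main' (hn : 2 ≤ n) (Ω : Set (Fin n → ℂ)) (hΩ : IsOpen Ω) (hc : IsConnected Ω)
    (hb : Bornology.IsBounded Ω) (hR : IsReinhardt Ω) (f : (Fin n → ℂ) → ℂ)
    (hf : DifferentiableOn ℂ f Ω) (h : HankelIsHilbertSchmidt Ω f) :
    HankelIsZero Ω f ∧ ∃ c : ℂ, ∀ z ∈ Ω, f z = c := by
  unfold HankelIsHilbertSchmidt at h
  rw [A2_eq_bergman] at h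
  obtain ⟨hdense, T, hT, hHS⟩ := h
  have hext : ExtendsHankel Ω f T := by
    intro g hg
    obtain ⟨h1, h2⟩ := hT g (hg.toLp _) hg.coeFn_toLp
    have h3 : (hg.toLp _ : L2 Ω) - T g ∈ (bergman Ω).topologicalClosure :=
      (bergman Ω).le_topologicalClosure h2
    have h4 : (hg.toLp _ : L2 Ω) - ((hg.toLp _ : L2 Ω) - T g) ∈ (bergman Ω).topologicalClosureᗮ := by
      rw [sub_sub_cancel, Submodule.orthogonal_closure]
      exact h1
    rw [Submodule.eq_starProjection_of_mem_orthogonal h3 h4, sub_sub_cancel]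
  have hdense' : Dense (hankelDomain Ω f) := by
    refine hdense.mono ?_
    rintro g ⟨φ, hφ⟩
    exact (Lp.memLp φ).ae_eq hφ
  obtain ⟨-, c, hcf⟩ := main hn Ω hΩ hc hb hR f hf T hdense' hext hHS
  refine ⟨?_, c, hcf⟩
  unfold HankelIsZero
  rw [A2_eq_bergman]
  intro g hg φ hφ
  have h2 : φ = conj c • g := by
    apply Lp.ext
    filter_upwards [hφ, Lp.coeFn_smul (conj c) g, ae_good hΩ.measurableSet] with z h3 h4 h5
    rw [h3, h4, Pi.smul_apply, hcf z h5.1, smul_eq_mul]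
  rw [h2]
  exact (bergman Ω).smul_mem _ hg

end Pool.Agent.W738.HS
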