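import Pool.Agent.W738.HS.Comp

/-!
Lines of exponents, lower bounds for the Hilbert-Schmidt norm.
-/

set_option autoImplicit false

open MeasureTheory Topology Filter Set Metric
open scoped ENNReal NNReal ContDiff ComplexConjugate

namespace Pool.Agent.W738.HS

section hs

variable {E F : Type*} [NormedAddCommGroup E] [InnerProductSpace ℂ E] [CompleteSpace E]
  [NormedAddCommGroup F] [InnerProductSpace ℂ F] [CompleteSpace F]

theorem parseval {ι : Type*} (b : HilbertBasis ι ℂ E) (x : E) :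
    ENNReal.ofReal (‖x‖ ^ 2) = ∑' i, ENNReal.ofReal (‖inner ℂ (b i) x‖ ^ 2) := by
  have h1 := b.hasSum_inner_mul_inner x x
  have h2 : HasSum (fun i => ((‖inner ℂ (b i) x‖ ^ 2 : ℝ) : ℂ)) ((‖x‖ ^ 2 : ℝ) : ℂ) := by
    have e1 : (fun i => ((‖inner ℂ (b i) x‖ ^ 2 : ℝ) : ℂ)) =
        fun i => inner ℂ x (b i) * inner ℂ (b i) x := by
      funext i
      rw [← inner_conj_symm x (b i), mul_comm, Complex.mul_conj, Complex.normSq_eq_norm_sq]
    have e2 : ((‖x‖ ^ 2 : ℝ) : ℂ) = inner ℂ x x := by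
      rw [inner_self_eq_norm_sq_to_K]; push_cast; rfl
    rw [e1, e2]; exact h1
  have h3 : HasSum (fun i => ‖inner ℂ (b i) x‖ ^ 2) (‖x‖ ^ 2) := by exact_mod_cast h2
  rw [← h3.tsum_eq, ENNReal.ofReal_tsum_of_nonneg (fun i => by positivity) h3.summable]

/-- the Hilbert-Schmidt norm computed with an orthonormal basis bounds the one computed with an
orthonormal family -/
theorem hs_bound (T : E →L[ℂ] F) {ι κ : Type*} (b : HilbertBasis ι ℂ E)
    (hs : Summable fun i => ‖T (b i)‖ ^ 2) {v : κ → E} (hv : Orthonormal ℂ v) (s : Finset κ) :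
    ∑ k ∈ s, ‖T (v k)‖ ^ 2 ≤ ∑' i, ‖T (b i)‖ ^ 2 := by
  obtain ⟨w, d, -⟩ := exists_hilbertBasis ℂ F
  have hB : ENNReal.ofReal (∑' i, ‖T (b i)‖ ^ 2) = ∑' j, ENNReal.ofReal (‖T.adjoint (d j)‖ ^ 2) := by
    rw [ENNReal.ofReal_tsum_of_nonneg (fun i => by positivity) hs]
    calc ∑' i, ENNReal.ofReal (‖T (b i)‖ ^ 2)
        = ∑' i, ∑' j, ENNReal.ofReal (‖inner ℂ (d j) (T (b i))‖ ^ 2) := by
          congr 1; funext i; exact parseval d _
      _ = ∑' j, ∑' i, ENNReal.ofReal (‖inner ℂ (d j) (T (b i))‖ ^ 2) := ENNReal.tsum_comm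
      _ = ∑' j, ENNReal.ofReal (‖T.adjoint (d j)‖ ^ 2) := by
          congr 1; funext j
          rw [parseval b]
          congr 1; funext i
          rw [← ContinuousLinearMap.adjoint_inner_left, norm_inner_symm]
  have h1 : ENNReal.ofReal (∑ k ∈ s, ‖T (v k)‖ ^ 2) ≤ ENNReal.ofReal (∑' i, ‖T (b i)‖ ^ 2) := by
    rw [hB, ENNReal.ofReal_sum_of_nonneg (fun k _ => by positivity)]
    calc ∑ k ∈ s, ENNReal.ofReal (‖T (v k)‖ ^ 2)
        = ∑ k ∈ s, ∑' j, ENNReal.ofReal (‖inner ℂ (d j) (T (v k))‖ ^ 2) := by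
          apply Finset.sum_congr rfl; intro k _; exact parseval d _
      _ = ∑' j, ∑ k ∈ s, ENNReal.ofReal (‖inner ℂ (d j) (T (v k))‖ ^ 2) :=
          (Summable.tsum_finsetSum fun _ _ => ENNReal.summable).symm
      _ ≤ ∑' j, ENNReal.ofReal (‖T.adjoint (d j)‖ ^ 2) := by
          apply ENNReal.tsum_le_tsum
          intro j
          rw [← ENNReal.ofReal_sum_of_nonneg (fun k _ => by positivity)]
          apply ENNReal.ofReal_le_ofReal
          refine le_trans (le_of_eq ?_) (hv.sum_inner_products_le (T.adjoint (d j)) (s := s))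
          apply Finset.sum_congr rfl
          intro k _
          rw [← ContinuousLinearMap.adjoint_inner_left, norm_inner_symm]
  exact (ENNReal.ofReal_le_ofReal_iff (tsum_nonneg fun i => by positivity)).1 h1

end hs

variable {n : ℕ}

theorem inner_vec_eq_zero {Ω : Set (Fin n → ℂ)} (hΩ : IsOpen Ω) (hR : IsReinhardt Ω)
    {α α' : Fin n → ℤ} (hα : α ∈ Sset Ω) (hα' : α' ∈ Sset Ω) (hne : α ≠ α') :
    inner ℂ (vec hΩ hα) (vec hΩ hα') = 0 := by
  have h0 : inner ℂ (vec hΩ hα) (vec hΩ hα') = ∫ z in Ω, conj (mon α z) * mon α' z :=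
    inner_toLp hα.1 hα'.1
  rw [h0]
  set I := ∫ z in Ω, conj (mon α z) * mon α' z with hI
  obtain ⟨j, hj⟩ := Function.ne_iff.1 hne
  set m : ℤ := α' j - α j with hm
  have hm0 : m ≠ 0 := sub_ne_zero.2 (Ne.symm hj)
  classical
  set t : Tor n := Pi.single j (((1 / (2 * m) : ℝ)) : UnitAddCircle) with ht
  have hF : ∀ γ : Fin n → ℤ, UnitAddTorus.mFourier γ t =
      Complex.exp (2 * Real.pi * Complex.I * γ j * (1 / (2 * m) : ℝ)) := by
    intro γ
    simp only [UnitAddTorus.mFourier, ContinuousMap.coe_mk]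
    rw [Finset.prod_eq_single j]
    · rw [ht, Pi.single_eq_same, fourier_coe_apply]
      congr 1
      push_cast
      ring
    · intro i _ hij
      rw [ht, Pi.single_eq_of_ne hij]
      simp
    · intro h; exact absurd (Finset.mem_univ j) h
  have hfac : conj (UnitAddTorus.mFourier α t) * UnitAddTorus.mFourier α' t = -1 := by
    rw [← UnitAddTorus.mFourier_neg, ← UnitAddTorus.mFourier_add, hF]
    have e1 : (2 * Real.pi * Complex.I * ((-α + α') j : ℤ) * ((1 / (2 * m) : ℝ) : ℂ)) =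
        Real.pi * Complex.I := by
      have e2 : ((-α + α') j : ℤ) = m := by simp [hm]; ring
      rw [e2]
      have hm1 : (m : ℂ) ≠ 0 := by exact_mod_cast hm0
      push_cast
      field_simp
    rw [e1, Complex.exp_pi_mul_I]
  have hmp := act_mp hΩ.measurableSet hR t
  have h1 : I = ∫ z in Ω, (fun z => conj (mon α z) * mon α' z) (act t z) := by
    rw [hI]
    have h2 := hmp.map_eq
    calc ∫ z in Ω, conj (mon α z) * mon α' z = ∫ z, (fun z => conj (mon α z) * mon α' z) z
          ∂(Measure.map (act t) (volume.restrict Ω)) := by rw [h2]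
      _ = _ := integral_map hmp.measurable.aemeasurable (by
          apply Measurable.aestronglyMeasurable
          exact (Complex.continuous_conj.measurable.comp (measurable_mon α)).mul (measurable_mon α'))
  have h3 : I = -I := by
    conv_lhs => rw [h1]
    rw [hI, ← integral_neg]
    apply integral_congr_ae
    refine Eventually.of_forall fun z => ?_
    simp only
    rw [mon_act, mon_act, map_mul]
    linear_combination (conj (mon α z) * mon α' z) * hfac
  have h4 : (2 : ℂ) * I = 0 := by linear_combination h3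
  exact (mul_eq_zero.1 h4).resolve_left two_ne_zero

/-- growth of the norms along a ray -/
theorem growth {Ω : Set (Fin n → ℂ)} {α γ : Fin n → ℤ}
    (hm : ∀ k : ℕ, MemLp (mon (α + (k : ℤ) • γ)) 2 (volume.restrict Ω)) {A : Set (Fin n → ℂ)}
    (hA : MeasurableSet A) (hAΩ : A ⊆ Ω) (hpos : (volume : Measure (Fin n → ℂ)) A ≠ 0) {a : ℝ} (ha : 0 ≤ a)
    (hw : ∀ z ∈ A, (∀ j, z j ≠ 0) → a ≤ ‖mon γ z‖ ^ 2) :
    ∃ η : ℝ, 0 < η ∧ ∀ k : ℕ, a ^ k * η ≤ N Ω (α + (k : ℤ) • γ) := by
  have hm0 : MemLp (mon α) 2 (volume.restrict Ω) := by simpa using hm 0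
  have hi0 : IntegrableOn (fun z => ‖mon α z‖ ^ 2) A := (integrable_sq hm0).mono_set hAΩ
  refine ⟨∫ z in A, ‖mon α z‖ ^ 2, ?_, ?_⟩
  · rw [integral_pos_iff_support_of_nonneg (fun z => by positivity) hi0]
    rw [pos_iff_ne_zero]
    intro h2
    apply hpos
    have h3 : ∀ᵐ z ∂(volume.restrict A : Measure (Fin n → ℂ)), False := by
      have h4 : ∀ᵐ z ∂(volume.restrict A : Measure (Fin n → ℂ)),
          z ∉ Function.support (fun z : Fin n → ℂ => ‖mon α z‖ ^ 2) := measure_eq_zero_iff_ae_notMem.1 h2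
      filter_upwards [h4, ae_good hA] with z h5 h6
      apply h5
      have := mon_ne_zero α h6.2
      simp only [Function.mem_support]
      positivity
    have h7 := ae_iff.1 h3
    simpa using h7
  · intro k
    have h1 : ∫ z in A, ‖mon (α + (k : ℤ) • γ) z‖ ^ 2 ≤ N Ω (α + (k : ℤ) • γ) :=
      setIntegral_mono_set (integrable_sq (hm k)) (Eventually.of_forall fun z => by positivity)
        hAΩ.eventuallyLE
    refine le_trans ?_ h1
    rw [← integral_const_mul]
    apply integral_mono_ae (hi0.const_mul _) ((integrable_sq (hm k)).mono_set hAΩ)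
    filter_upwards [ae_good hA] with z hz
    have h2 : mon (α + (k : ℤ) • γ) z = mon α z * mon γ z ^ k := by
      rw [mon_add _ _ hz.2]
      congr 1
      simp only [mon, Pi.smul_apply, smul_eq_mul]
      rw [← Finset.prod_pow]
      apply Finset.prod_congr rfl
      intro j _
      rw [mul_comm, zpow_mul, zpow_natCast]
    rw [h2, norm_mul, norm_pow, mul_pow]
    have h3 := hw z hz.1 hz.2
    have h4 : (‖mon γ z‖ ^ k) ^ 2 = (‖mon γ z‖ ^ 2) ^ k := by rw [← pow_mul, ← pow_mul, mul_comm]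
    rw [h4, mul_comm]
    have h5 : a ^ k ≤ (‖mon γ z‖ ^ 2) ^ k := by gcongr
    have h6 : (0 : ℝ) ≤ ‖mon α z‖ ^ 2 := by positivity
    exact mul_le_mul_of_nonneg_left h5 h6

/-- a positive sequence which grows like `a ^ k` has a large ratio -/
theorem exists_ratio {x : ℕ → ℝ} {a a' η : ℝ} (ha' : 0 < a') (haa : a' < a) (hη : 0 < η)
    (hlow : ∀ k, a ^ k * η ≤ x k) : ∃ k, a' * x k < x (k + 1) := by
  by_contra hcon
  push Not at hcon
  have h1 : ∀ k, x k ≤ a' ^ k * x 0 := by
    intro k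
    induction k with
    | zero => simp
    | succ k ih =>
      calc x (k + 1) ≤ a' * x k := hcon k
        _ ≤ a' * (a' ^ k * x 0) := by gcongr
        _ = a' ^ (k + 1) * x 0 := by ring
  have h2 : Tendsto (fun k : ℕ => (a / a') ^ k) atTop atTop :=
    tendsto_pow_atTop_atTop_of_one_lt ((one_lt_div ha').2 haa)
  obtain ⟨k, hk⟩ := (h2.eventually_gt_atTop (x 0 / η)).exists
  have h3 := (hlow k).trans (h1 k)
  rw [div_pow, div_lt_div_iff₀ hη (by positivity)] at hk
  linarith

end Pool.Agent.W738.HS
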