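import Pool.Agent.W738.HS.Lines

/-!
The theorem on Hilbert-Schmidt Hankel operators.
-/

set_option autoImplicit false

open MeasureTheory Topology Filter Set Metric
open scoped ENNReal NNReal ContDiff ComplexConjugate

namespace Pool.Agent.W738.HS

variable {n : ℕ}

open Classical in
/-- the squared norm of `T` on the normalised monomial -/
noncomputable def D {Ω : Set (Fin n → ℂ)} (hΩ : IsOpen Ω) (T : bergman Ω →L[ℂ] L2 Ω)
    (α : Fin n → ℤ) : ℝ :=
  if h : α ∈ Sset Ω then ‖T (vec hΩ h)‖ ^ 2 / N Ω α else 0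

section line

variable {Ω : Set (Fin n → ℂ)} (hΩ : IsOpen Ω) (hc : IsPreconnected Ω) (hR : IsReinhardt Ω)
  (hne : Ω.Nonempty)
  {f : (Fin n → ℂ) → ℂ} (hf : DifferentiableOn ℂ f Ω) {T : bergman Ω →L[ℂ] L2 Ω}
  (hdense : Dense (hankelDomain Ω f)) (hT : ExtendsHankel Ω f T)
  {β : Fin n → ℤ} {a : ℂ} (ha0 : a ≠ 0) (ha : ∀ z ∈ Ω, (∀ j, z j ≠ 0) → avg β f z = a * mon β z)

include hΩ hc hR hf hdense hT ha ha0 hne

theorem D_first {α : Fin n → ℤ} (hα : α ∈ Sset Ω) (hα1 : α + β ∈ Sset Ω) (hα' : α - β ∉ Sset Ω) :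
    ‖a‖ ^ 2 * (N Ω (α + β) / N Ω α) ≤ D hΩ T α := by
  have h1 := lower_first hΩ hc hR hf hdense hT ha ha0 hα hα1 hα'
  have h2 := N_pos hΩ hne hα
  rw [D, dif_pos hα, ← mul_div_assoc]
  gcongr

theorem D_gen {α : Fin n → ℤ} (hα : α ∈ Sset Ω) (hα1 : α + β ∈ Sset Ω) (hα' : α - β ∈ Sset Ω) :
    ‖a‖ ^ 2 * (N Ω (α + β) / N Ω α - N Ω α / N Ω (α - β)) ≤ D hΩ T α := by
  have h1 := lower_gen hΩ hc hR hf hdense hT ha hne hα hα1 hα'
  have h2 := N_pos hΩ hne hα
  have h3 := N_pos hΩ hne hα'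
  rw [D, dif_pos hα, le_div_iff₀ h2]
  refine le_trans (le_of_eq ?_) h1
  field_simp

theorem all_up {α : Fin n → ℤ} (hα : α ∈ Sset Ω) (hα1 : α + β ∈ Sset Ω) (k : ℕ) :
    α + (k : ℤ) • β ∈ Sset Ω ∧ α + ((k : ℤ) + 1) • β ∈ Sset Ω := by
  induction k with
  | zero => simpa using ⟨hα, hα1⟩
  | succ k ih =>
    refine ⟨by push_cast; exact ih.2, ?_⟩
    have h1 := up_mem hΩ hc hR hf hdense hT ha ha0 ih.2 (by
      have : α + ((k : ℤ) + 1) • β - β = α + (k : ℤ) • β := by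
        rw [add_smul, one_smul]; abel
      rw [this]; exact ih.1)
    have h2 : α + ((k : ℤ) + 1) • β + β = α + (((k + 1 : ℕ) : ℤ) + 1) • β := by
      push_cast
      rw [add_smul ((k : ℤ) + 1) 1 β, one_smul]; abel
    rwa [h2] at h1

/-- telescoping sums -/
theorem sum_line {α : Fin n → ℤ} (hα : α ∈ Sset Ω) (hα1 : α + β ∈ Sset Ω) {ρ : ℝ}
    (hρ : ‖a‖ ^ 2 * (N Ω (α + β) / N Ω α - ρ) ≤ D hΩ T α) (L : ℕ) :
    ‖a‖ ^ 2 * (N Ω (α + ((L : ℤ) + 1) • β) / N Ω (α + (L : ℤ) • β) - ρ) ≤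
      ∑ k ∈ Finset.range (L + 1), D hΩ T (α + (k : ℤ) • β) := by
  induction L with
  | zero => simpa using hρ
  | succ L ih =>
    rw [Finset.sum_range_succ]
    have h1 := all_up hΩ hc hR hne hf hdense hT ha0 ha hα hα1 L
    have h2 := all_up hΩ hc hR hne hf hdense hT ha0 ha hα hα1 (L + 1)
    have e1 : α + ((L + 1 : ℕ) : ℤ) • β + β = α + (((L + 1 : ℕ) : ℤ) + 1) • β := by
      rw [add_smul _ 1 β, one_smul]; abel
    have e2 : α + ((L + 1 : ℕ) : ℤ) • β - β = α + (L : ℤ) • β := by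
      push_cast
      rw [add_smul, one_smul]; abel
    have e3 : α + ((L : ℤ) + 1) • β = α + ((L + 1 : ℕ) : ℤ) • β := by push_cast; rfl
    have h3 := D_gen hΩ hc hR hne hf hdense hT ha0 ha (α := α + ((L + 1 : ℕ) : ℤ) • β) h2.1
      (by rw [e1]; exact h2.2) (by rw [e2]; exact h1.1)
    rw [e1, e2] at h3
    rw [e3] at ih
    linarith

/-- each line contributes a fixed amount -/
theorem line_bound {a₁ a₂ b₁ b₂ : ℝ} (hb₁ : 0 < b₁) (hb : b₁ < b₂) (hab : b₂ ≤ a₂) (haa : a₂ < a₁)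
    {A B : Set (Fin n → ℂ)} (hA : MeasurableSet A) (hAΩ : A ⊆ Ω)
    (hApos : (volume : Measure (Fin n → ℂ)) A ≠ 0)
    (hB : MeasurableSet B) (hBΩ : B ⊆ Ω) (hBpos : (volume : Measure (Fin n → ℂ)) B ≠ 0)
    (hwA : ∀ z ∈ A, (∀ j, z j ≠ 0) → a₁ ≤ ‖mon β z‖ ^ 2)
    (hwB : ∀ z ∈ B, (∀ j, z j ≠ 0) → ‖mon β z‖ ^ 2 ≤ b₁)
    {α : Fin n → ℤ} (hα : α ∈ Sset Ω) (hα1 : α + β ∈ Sset Ω) :
    ∃ F : Finset ℤ, (∀ k ∈ F, α + k • β ∈ Sset Ω) ∧
      ‖a‖ ^ 2 * (a₂ - b₂) ≤ ∑ k ∈ F, D hΩ T (α + k • β) := by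
  -- the starting point
  have hstart : ∃ (m : ℕ) (ρ : ℝ), ρ ≤ b₂ ∧ α - (m : ℤ) • β ∈ Sset Ω ∧ α - (m : ℤ) • β + β ∈ Sset Ω ∧
      ‖a‖ ^ 2 * (N Ω (α - (m : ℤ) • β + β) / N Ω (α - (m : ℤ) • β) - ρ) ≤
        D hΩ T (α - (m : ℤ) • β) := by
    by_cases hall : ∀ m : ℕ, α - (m : ℤ) • β ∈ Sset Ω
    · -- two-sided line
      have hm : ∀ k : ℕ, MemLp (mon (α + (k : ℤ) • (-β))) 2 (volume.restrict Ω) := by
        intro k
        have e1 : α + (k : ℤ) • (-β) = α - (k : ℤ) • β := by rw [smul_neg, sub_eq_add_neg]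
        rw [e1]; exact (hall k).1
      obtain ⟨η, hη, hlow⟩ := growth hm hB hBΩ hBpos (a := b₁⁻¹) (by positivity) (by
        intro z hz hz0
        rw [mon_neg, norm_inv, inv_pow]
        have h1 := hwB z hz hz0
        have h2 : 0 < ‖mon β z‖ ^ 2 := by
          have := mon_ne_zero β hz0
          positivity
        exact inv_anti₀ h2 h1)
      have hb₂ : 0 < b₂ := hb₁.trans hb
      obtain ⟨k, hk⟩ := exists_ratio (a' := b₂⁻¹) (by positivity)
        ((inv_lt_inv₀ hb₂ hb₁).2 hb) hη hlow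
      have e1 : α + (k : ℤ) • (-β) = α - (k : ℤ) • β := by rw [smul_neg, sub_eq_add_neg]
      have e2 : α + ((k + 1 : ℕ) : ℤ) • (-β) = α - (k : ℤ) • β - β := by
        push_cast
        rw [smul_neg, add_smul, one_smul]; abel
      have e3 : α - (k : ℤ) • β - β = α - ((k + 1 : ℕ) : ℤ) • β := by
        push_cast
        rw [add_smul, one_smul]; abel
      have h4 : α - (k : ℤ) • β + β ∈ Sset Ω := by
        rcases Nat.eq_zero_or_pos k with h | h
        · subst h; simpa using hα1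
        · obtain ⟨k', rfl⟩ := Nat.exists_eq_add_of_le' h
          have : α - ((k' + 1 : ℕ) : ℤ) • β + β = α - (k' : ℤ) • β := by
            push_cast
            rw [add_smul, one_smul]; abel
          rw [this]; exact hall k'
      have h5 : α - (k : ℤ) • β - β ∈ Sset Ω := by rw [e3]; exact hall (k + 1)
      refine ⟨k, N Ω (α - (k : ℤ) • β) / N Ω (α - (k : ℤ) • β - β), ?_, hall k, h4,
        D_gen hΩ hc hR hne hf hdense hT ha0 ha (hall k) h4 h5⟩
      rw [e1, e2] at hk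
      have h6 := N_pos hΩ hne h5
      rw [div_le_iff₀ h6]
      have h7 : N Ω (α - (k : ℤ) • β) < b₂ * N Ω (α - (k : ℤ) • β - β) := by
        have := mul_lt_mul_of_pos_left hk hb₂
        rwa [← mul_assoc, mul_inv_cancel₀ hb₂.ne', one_mul] at this
      exact h7.le
    · push Not at hall
      classical
      have hex : ∃ m : ℕ, α - (m : ℤ) • β ∉ Sset Ω := hall
      set m := Nat.find hex with hm
      have hm1 : α - (m : ℤ) • β ∉ Sset Ω := Nat.find_spec hex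
      have hmin : ∀ k < m, α - (k : ℤ) • β ∈ Sset Ω := fun k hk => by
        by_contra h; exact Nat.find_min hex hk h
      have hm0 : m ≠ 0 := by
        intro h
        rw [h] at hm1
        apply hm1
        simpa using hα
      obtain ⟨m', hm'⟩ := Nat.exists_eq_succ_of_ne_zero hm0
      have h1 : α - (m' : ℤ) • β ∈ Sset Ω := hmin m' (by omega)
      have h2 : α - (m' : ℤ) • β - β ∉ Sset Ω := by
        have : α - (m' : ℤ) • β - β = α - (m : ℤ) • β := by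
          rw [hm']
          push_cast
          rw [add_smul, one_smul]; abel
        rw [this]; exact hm1
      have h4 : α - (m' : ℤ) • β + β ∈ Sset Ω := by
        rcases Nat.eq_zero_or_pos m' with h | h
        · rw [h]; simpa using hα1
        · obtain ⟨k', hk'⟩ := Nat.exists_eq_add_of_le' h
          have : α - (m' : ℤ) • β + β = α - (k' : ℤ) • β := by
            rw [hk']
            push_cast
            rw [add_smul, one_smul]; abel
          rw [this]; exact hmin k' (by omega)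
      refine ⟨m', 0, by linarith, h1, h4, ?_⟩
      rw [sub_zero]
      exact D_first hΩ hc hR hne hf hdense hT ha0 ha h1 h4 h2
  obtain ⟨m, ρ, hρ, hs1, hs2, hs3⟩ := hstart
  set α' := α - (m : ℤ) • β with hα'
  have ha₂ : 0 < a₂ := by linarith
  obtain ⟨η, hη, hlow⟩ := growth (Ω := Ω) (α := α') (γ := β)
    (fun k => (all_up hΩ hc hR hne hf hdense hT ha0 ha hs1 hs2 k).1.1) hA hAΩ hApos (a := a₁)
    (by linarith) hwA
  obtain ⟨L, hL⟩ := exists_ratio ha₂ haa hη hlow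
  have h1 := sum_line hΩ hc hR hne hf hdense hT ha0 ha hs1 hs2 hs3 L
  have h2 : a₂ ≤ N Ω (α' + ((L : ℤ) + 1) • β) / N Ω (α' + (L : ℤ) • β) := by
    rw [le_div_iff₀ (N_pos hΩ hne (all_up hΩ hc hR hne hf hdense hT ha0 ha hs1 hs2 L).1)]
    push_cast at hL
    exact hL.le
  refine ⟨(Finset.range (L + 1)).image (fun k : ℕ => (k : ℤ) - m), ?_, ?_⟩
  · intro k hk
    obtain ⟨k', hk', rfl⟩ := Finset.mem_image.1 hk
    have h3 := (all_up hΩ hc hR hne hf hdense hT ha0 ha hs1 hs2 k').1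
    have : α + ((k' : ℤ) - m) • β = α' + (k' : ℤ) • β := by rw [hα', sub_smul]; abel
    rwa [this]
  · rw [Finset.sum_image (by intro x _ y _ h; simpa using h)]
    refine le_trans ?_ (h1.trans (le_of_eq ?_))
    · have : 0 ≤ ‖a‖ ^ 2 := by positivity
      apply mul_le_mul_of_nonneg_left _ this
      linarith
    · apply Finset.sum_congr rfl
      intro k _
      congr 1
      rw [hα', sub_smul]; abel

end line

end Pool.Agent.W738.HS
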