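import Pool.Agent.Helper857.A1

/-!
Basic facts on holomorphic functions on open subsets of `ℂⁿ`: sub-mean value inequality, Montel's
theorem, almost everywhere limits of locally square bounded sequences.
The proofs of `rot`, `inner_le`, `sub_mean` and `montel_gen` are copied from the starting files
H158I/BGMV and H471R3/BGMontel (to avoid importing a long file).
-/

set_option autoImplicit false

open MeasureTheory Topology Filter Set Metric
open scoped ENNReal NNReal ContDiff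

namespace Pool.Agent.W738.HS

/-- multiplication by a complex number of absolute value one preserves Haar measure -/
theorem rot {F : Type} [NormedAddCommGroup F] [NormedSpace ℂ F] [FiniteDimensional ℂ F]
    [MeasurableSpace F] [BorelSpace F] (μ : Measure F) [μ.IsAddHaarMeasure] (c : ℂ)
    (hc : ‖c‖ = 1) : MeasurePreserving (fun y : F => c • y) μ μ := by
  let _ : NormedSpace ℝ F := NormedSpace.restrictScalars ℝ ℂ F
  have _ : IsScalarTower ℝ ℂ F := RestrictScalars.isScalarTower ℝ ℂ F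
  have _ : FiniteDimensional ℝ F := FiniteDimensional.trans ℝ ℂ F
  have hc0 : c ≠ 0 := by
    intro h
    rw [h, norm_zero] at hc
    exact zero_ne_one hc
  let L : F →ₗ[ℝ] F := (LinearMap.lsmul ℂ F c).restrictScalars ℝ
  have hL : ∀ y, L y = c • y := fun y => rfl
  have hinj : Function.Injective L := by
    intro y z h
    rw [hL, hL] at h
    exact smul_right_injective F hc0 h
  have hdet : LinearMap.det L ≠ 0 := by
    have hu : IsUnit L := (LinearMap.isUnit_iff_ker_eq_bot L).2 (LinearMap.ker_eq_bot.2 hinj)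
    exact (LinearMap.isUnit_det L hu).ne_zero
  have hmap := Measure.map_linearMap_addHaar_eq_smul_addHaar μ hdet
  have hmeas : Measurable (fun y : F => c • y) := (continuous_const_smul c).measurable
  have hball : (fun y : F => c • y) ⁻¹' ball 0 1 = ball 0 1 := by
    ext y
    simp [norm_smul, hc]
  have hval : μ (ball (0:F) 1) = ENNReal.ofReal |(LinearMap.det L)⁻¹| * μ (ball (0:F) 1) := by
    have h1 := congrArg (fun ν : Measure F => ν (ball 0 1)) hmap
    simp only [Measure.smul_apply, smul_eq_mul] at h1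
    rw [← h1]
    change _ = (Measure.map (fun y : F => c • y) μ) (ball 0 1)
    rw [Measure.map_apply hmeas measurableSet_ball, hball]
  have hpos : μ (ball (0:F) 1) ≠ 0 := (measure_ball_pos μ 0 one_pos).ne'
  have hfin : μ (ball (0:F) 1) ≠ ⊤ := measure_ball_lt_top.ne
  have hone : ENNReal.ofReal |(LinearMap.det L)⁻¹| = 1 := by
    have h2 : 1 * μ (ball (0:F) 1) = ENNReal.ofReal |(LinearMap.det L)⁻¹| * μ (ball (0:F) 1) := by
      rw [one_mul]; exact hval
    exact ((ENNReal.mul_left_inj hpos hfin).1 h2).symm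
  refine ⟨hmeas, ?_⟩
  change Measure.map L μ = μ
  rw [hmap, hone, one_smul]

theorem inner_le {F : Type} [NormedAddCommGroup F] [NormedSpace ℂ F] (x y : F) (R : ℝ)
    (f : F → ℂ) (hf : DifferentiableOn ℂ f (ball x R)) (hy : y ∈ ball x R) :
    ENNReal.ofReal (2 * Real.pi) * ‖f x‖ₑ ^ 2 ≤
      ∫⁻ θ in Ioc 0 (2 * Real.pi), ‖f (x + circleMap 0 1 θ • (y - x))‖ₑ ^ 2 := by
  have hd : ‖y - x‖ < R := by rwa [mem_ball, dist_eq_norm] at hy
  let g : ℂ → ℂ := fun ζ => f (x + ζ • (y - x)) ^ 2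
  have hg : ∀ z ∈ closedBall (0:ℂ) |1|, DifferentiableAt ℂ g z := by
    intro z hz
    have hz1 : ‖z‖ ≤ 1 := by simpa using hz
    have hin : x + z • (y - x) ∈ ball x R := by
      rw [mem_ball, dist_eq_norm, add_sub_cancel_left, norm_smul]
      calc ‖z‖ * ‖y - x‖ ≤ 1 * ‖y - x‖ := by gcongr
        _ < R := by rw [one_mul]; exact hd
    have h1 : DifferentiableAt ℂ f (x + z • (y - x)) := hf.differentiableAt (isOpen_ball.mem_nhds hin)
    have h2 : DifferentiableAt ℂ (fun ζ : ℂ => x + ζ • (y - x)) z := by fun_prop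
    exact (DifferentiableAt.comp z h1 h2).pow 2
  have hdc : DiffContOnCl ℂ g (ball 0 |1|) := by
    apply DifferentiableOn.diffContOnCl
    intro z hz
    apply DifferentiableAt.differentiableWithinAt
    apply hg z
    exact closure_ball_subset_closedBall hz
  have havg := DiffContOnCl.circleAverage hdc
  have h0 : g 0 = f x ^ 2 := by simp [g]
  rw [h0] at havg
  unfold Real.circleAverage at havg
  have hpi : (0:ℝ) < 2 * Real.pi := by positivity
  have h3 : (∫ θ in (0:ℝ)..2 * Real.pi, g (circleMap 0 1 θ)) = (2 * Real.pi) • f x ^ 2 := by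
    rw [← havg, smul_smul, mul_inv_cancel₀ hpi.ne', one_smul]
  have h4 : ENNReal.ofReal (2 * Real.pi) * ‖f x‖ₑ ^ 2 =
      ‖∫ θ in (0:ℝ)..2 * Real.pi, g (circleMap 0 1 θ)‖ₑ := by
    rw [h3, enorm_smul, enorm_pow, Real.enorm_of_nonneg hpi.le]
  rw [h4, intervalIntegral.integral_of_le hpi.le]
  refine (enorm_integral_le_lintegral_enorm _).trans (le_of_eq ?_)
  apply lintegral_congr
  intro θ
  simp only [g]
  rw [enorm_pow]

/-- Sub-mean value inequality over balls, for a Haar measure. -/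
theorem sub_mean {F : Type} [NormedAddCommGroup F] [NormedSpace ℂ F] [FiniteDimensional ℂ F]
    [MeasurableSpace F] [BorelSpace F] (μ : Measure F) [μ.IsAddHaarMeasure] (x : F) (R : ℝ)
    (f : F → ℂ) (hf : DifferentiableOn ℂ f (ball x R)) :
    ‖f x‖ₑ ^ 2 * μ (ball x R) ≤ ∫⁻ y in ball x R, ‖f y‖ₑ ^ 2 ∂μ := by
  have hpi : (0:ℝ) < 2 * Real.pi := by positivity
  have _ : FiniteDimensional ℝ F := FiniteDimensional.trans ℝ ℂ F
  have _ : ProperSpace F := FiniteDimensional.proper ℂ F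
  have _ : SecondCountableTopology F := inferInstance
  set h : F → ℝ≥0∞ := (ball x R).indicator (fun y => ‖f y‖ₑ ^ 2) with hh
  have hhm : Measurable h := by
    classical
    rw [hh, ← Set.piecewise_eq_indicator]
    have hc : ContinuousOn (fun y => ‖f y‖ₑ ^ 2) (ball x R) :=
      (ENNReal.continuous_pow 2).comp_continuousOn (continuous_enorm.comp_continuousOn hf.continuousOn)
    exact hc.measurable_piecewise continuousOn_const isOpen_ball.measurableSet
  have hint : ∫⁻ y in ball x R, ‖f y‖ₑ ^ 2 ∂μ = ∫⁻ y, h y ∂μ := by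
    rw [hh, lintegral_indicator measurableSet_ball]
  have hrot : ∀ θ : ℝ, ∫⁻ y, h (x + circleMap 0 1 θ • (y - x)) ∂μ = ∫⁻ y, h y ∂μ := by
    intro θ
    have hc : ‖circleMap 0 1 θ‖ = 1 := by simp
    have e1 := lintegral_sub_right_eq_self (μ := μ)
      (fun y => h (x + circleMap 0 1 θ • y)) x
    have e2 := (rot μ (circleMap 0 1 θ) hc).lintegral_comp
      (f := fun y => h (x + y)) (hhm.comp (measurable_const_add x))
    have e3 := lintegral_add_left_eq_self (μ := μ) h x
    rw [e1, e2, e3]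
  have hJ : Measurable (fun q : ℝ × F => h (x + circleMap 0 1 q.1 • (q.2 - x))) := by
    apply hhm.comp
    apply Continuous.measurable
    have : Continuous (fun q : ℝ × F => circleMap 0 1 q.1) :=
      (continuous_circleMap 0 1).comp continuous_fst
    exact continuous_const.add (this.smul (continuous_snd.sub continuous_const))
  have hswap : ∫⁻ θ in Ioc 0 (2 * Real.pi), ∫⁻ y, h (x + circleMap 0 1 θ • (y - x)) ∂μ =
      ∫⁻ y, (∫⁻ θ in Ioc 0 (2 * Real.pi), h (x + circleMap 0 1 θ • (y - x))) ∂μ :=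
    lintegral_lintegral_swap hJ.aemeasurable
  have hleft : ∫⁻ θ in Ioc 0 (2 * Real.pi), ∫⁻ y, h (x + circleMap 0 1 θ • (y - x)) ∂μ =
      ENNReal.ofReal (2 * Real.pi) * ∫⁻ y, h y ∂μ := by
    simp_rw [hrot]
    rw [setLIntegral_const, Real.volume_Ioc, sub_zero, mul_comm]
  have hright : ENNReal.ofReal (2 * Real.pi) * (‖f x‖ₑ ^ 2 * μ (ball x R)) ≤
      ∫⁻ y, (∫⁻ θ in Ioc 0 (2 * Real.pi), h (x + circleMap 0 1 θ • (y - x))) ∂μ := by
    calc ENNReal.ofReal (2 * Real.pi) * (‖f x‖ₑ ^ 2 * μ (ball x R))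
        = ∫⁻ _ in ball x R, ENNReal.ofReal (2 * Real.pi) * ‖f x‖ₑ ^ 2 ∂μ := by
          rw [setLIntegral_const, mul_assoc]
      _ ≤ ∫⁻ y in ball x R, (∫⁻ θ in Ioc 0 (2 * Real.pi),
            h (x + circleMap 0 1 θ • (y - x))) ∂μ := by
          apply setLIntegral_mono' measurableSet_ball
          intro y hy
          refine (inner_le x y R f hf hy).trans (le_of_eq ?_)
          apply lintegral_congr
          intro θ
          have hin : x + circleMap 0 1 θ • (y - x) ∈ ball x R := by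
            rw [mem_ball, dist_eq_norm, add_sub_cancel_left, norm_smul]
            have hc : ‖circleMap 0 1 θ‖ = 1 := by simp
            rw [hc, one_mul]
            rwa [mem_ball, dist_eq_norm] at hy
          rw [hh, Set.indicator_of_mem hin]
      _ ≤ _ := setLIntegral_le_lintegral _ _
  rw [hint]
  rw [← hswap, hleft] at hright
  have hpi0 : ENNReal.ofReal (2 * Real.pi) ≠ 0 := (ENNReal.ofReal_pos.2 hpi).ne'
  exact (ENNReal.mul_le_mul_iff_right hpi0 ENNReal.ofReal_ne_top).1 hright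


variable {n : ℕ}

lemma montel_gen (Ω : Set (Fin n → ℂ)) (hΩ : IsOpen Ω) (h : ℕ → (Fin n → ℂ) → ℂ)
    (hd : ∀ j, DifferentiableOn ℂ (h j) Ω)
    (hbd : ∀ z ∈ Ω, ∃ δ : ℝ, 0 < δ ∧ ball z δ ⊆ Ω ∧
      ∃ B : ℝ, 0 ≤ B ∧ ∀ j, ∀ w ∈ ball z δ, ‖h j w‖ ≤ B) :
    ∃ φ : ℕ → ℕ, StrictMono φ ∧ ∃ g : (Fin n → ℂ) → ℂ,
      TendstoLocallyUniformlyOn (fun j => h (φ j)) g atTop Ω := by
  -- the equi-Lipschitz estimate
  have hL : ∀ z ∈ Ω, ∃ K : ℝ, 0 < K ∧ ∃ δ : ℝ, 0 < δ ∧ ball z δ ⊆ Ω ∧
      ∀ j, ∀ w ∈ ball z δ, ‖h j w - h j z‖ ≤ K * ‖w - z‖ := by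
    intro z hz
    obtain ⟨δ, hδ, hsub, B, hB0, hB⟩ := hbd z hz
    refine ⟨(2 * B + 1) / δ, by positivity, δ, hδ, hsub, fun j w hw => ?_⟩
    have hmaps : MapsTo (h j) (ball z δ) (closedBall (h j z) (2 * B)) := by
      intro x hx
      rw [mem_closedBall, dist_eq_norm]
      have h1 := hB j x hx
      have h2 := hB j z (mem_ball_self hδ)
      have h3 := norm_sub_le (h j x) (h j z)
      linarith
    have h4 := Complex.dist_le_div_mul_dist_of_mapsTo_ball ((hd j).mono hsub) hmaps hw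
    rw [dist_eq_norm, dist_eq_norm] at h4
    refine h4.trans ?_
    gcongr
    linarith
  -- values on a dense sequence
  set d : ℕ → (Fin n → ℂ) := TopologicalSpace.denseSeq (Fin n → ℂ) with hdd
  have hdense : DenseRange d := TopologicalSpace.denseRange_denseSeq (Fin n → ℂ)
  have hbd' : ∀ k, ∃ C : ℝ, ∀ j, d k ∈ Ω → ‖h j (d k)‖ ≤ C := by
    intro k
    by_cases hk : d k ∈ Ω
    · obtain ⟨δ, hδ, hsub, B, hB0, hB⟩ := hbd _ hk
      exact ⟨B, fun j _ => hB j _ (mem_ball_self hδ)⟩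
    · exact ⟨0, fun j h => absurd h hk⟩
  choose C hC using hbd'
  classical
  set x : ℕ → ℕ → ℂ := fun j k => if d k ∈ Ω then h j (d k) else 0 with hx
  have hcomp : IsCompact (Set.pi Set.univ fun k : ℕ => closedBall (0 : ℂ) |C k|) :=
    isCompact_univ_pi fun k => isCompact_closedBall _ _
  have hxm : ∀ j, x j ∈ Set.pi Set.univ fun k : ℕ => closedBall (0 : ℂ) |C k| := by
    intro j k _
    simp only [hx]
    rw [mem_closedBall_zero_iff]
    split_ifs with hk
    · exact (hC k j hk).trans (le_abs_self _)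
    · simp
  obtain ⟨a, -, φ, hφ, hlim⟩ := hcomp.tendsto_subseq hxm
  have hk : ∀ k, d k ∈ Ω → CauchySeq fun j => h (φ j) (d k) := by
    intro k hk
    have h1 : Tendsto (fun j => x (φ j) k) atTop (𝓝 (a k)) :=
      ((continuous_apply k).tendsto a).comp hlim
    have h2 : (fun j => x (φ j) k) = fun j => h (φ j) (d k) := by
      ext1 j
      simp only [hx, if_pos hk]
    rw [h2] at h1
    exact h1.cauchySeq
  have hcau : ∀ z ∈ Ω, CauchySeq fun j => h (φ j) z := by
    intro z hz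
    obtain ⟨K, hK, δ, hδ, hsub, hLip⟩ := hL z hz
    rw [Metric.cauchySeq_iff']
    intro ε hε
    obtain ⟨k, hkz⟩ : ∃ k, d k ∈ ball z (min δ (ε / (3 * K))) :=
      hdense.exists_mem_open isOpen_ball ⟨z, mem_ball_self (by positivity)⟩
    have hkδ : d k ∈ ball z δ := ball_subset_ball (min_le_left _ _) hkz
    have hke : ‖d k - z‖ < ε / (3 * K) := by
      have := ball_subset_ball (min_le_right _ _) hkz
      rwa [mem_ball, dist_eq_norm] at this
    have hke' : K * ‖d k - z‖ < ε / 3 := by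
      calc K * ‖d k - z‖ < K * (ε / (3 * K)) := by gcongr
        _ = ε / 3 := by field_simp
    obtain ⟨N, hN⟩ := (Metric.cauchySeq_iff'.1 (hk k (hsub hkδ))) (ε / 3) (by positivity)
    refine ⟨N, fun j hj => ?_⟩
    have h1 := hLip (φ j) (d k) hkδ
    have h2 := hLip (φ N) (d k) hkδ
    have h3 := hN j hj
    rw [dist_eq_norm] at h3 ⊢
    calc ‖h (φ j) z - h (φ N) z‖ = ‖-(h (φ j) (d k) - h (φ j) z) + (h (φ j) (d k) - h (φ N) (d k))
          + (h (φ N) (d k) - h (φ N) z)‖ := by congr 1; abel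
      _ ≤ ‖-(h (φ j) (d k) - h (φ j) z)‖ + ‖h (φ j) (d k) - h (φ N) (d k)‖
          + ‖h (φ N) (d k) - h (φ N) z‖ := norm_add₃_le
      _ < ε := by rw [norm_neg]; linarith
  have hex : ∀ z : Fin n → ℂ, ∃ w : ℂ, z ∈ Ω → Tendsto (fun j => h (φ j) z) atTop (𝓝 w) := by
    intro z
    by_cases hz : z ∈ Ω
    · obtain ⟨w, hw⟩ := cauchySeq_tendsto_of_complete (hcau z hz)
      exact ⟨w, fun _ => hw⟩
    · exact ⟨0, fun h => absurd h hz⟩
  choose g hg using hex
  refine ⟨φ, hφ, g, ?_⟩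
  rw [Metric.tendstoLocallyUniformlyOn_iff]
  intro ε hε z hz
  obtain ⟨K, hK, δ, hδ, hsub, hLip⟩ := hL z hz
  refine ⟨ball z (min δ (ε / (3 * K))), mem_nhdsWithin_of_mem_nhds (ball_mem_nhds _ (by positivity)),
    ?_⟩
  have h1 := (Metric.tendsto_atTop.1 (hg z hz)) (ε / 3) (by positivity)
  obtain ⟨N, hN⟩ := h1
  filter_upwards [eventually_ge_atTop N] with j hj w hw
  have hwδ : w ∈ ball z δ := ball_subset_ball (min_le_left _ _) hw
  have hwe : K * ‖w - z‖ ≤ ε / 3 := by
    have := ball_subset_ball (min_le_right _ _) hw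
    rw [mem_ball, dist_eq_norm] at this
    calc K * ‖w - z‖ ≤ K * (ε / (3 * K)) := by gcongr
      _ = ε / 3 := by field_simp
  have h2 : ‖g w - g z‖ ≤ ε / 3 := by
    have h3 : Tendsto (fun j => ‖h (φ j) w - h (φ j) z‖) atTop (𝓝 ‖g w - g z‖) :=
      ((hg w (hsub hwδ)).sub (hg z hz)).norm
    exact le_of_tendsto' h3 fun j => (hLip (φ j) w hwδ).trans hwe
  have h4 := (hLip (φ j) w hwδ).trans hwe
  have h5 := hN j hj
  rw [dist_eq_norm] at h5
  rw [dist_comm, dist_eq_norm]
  calc ‖h (φ j) w - g w‖ = ‖(h (φ j) w - h (φ j) z) + (h (φ j) z - g z) + -(g w - g z)‖ := by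
        congr 1; abel
    _ ≤ ‖h (φ j) w - h (φ j) z‖ + ‖h (φ j) z - g z‖ + ‖-(g w - g z)‖ := norm_add₃_le
    _ < ε := by rw [norm_neg]; linarith


/-- If a sequence of holomorphic functions on the open set `Ω` is locally bounded in `L²` and
converges almost everywhere on `Ω` to `v`, then `v` is almost everywhere equal to a holomorphic
function. -/
theorem exists_holo_of_ae_tendsto {Ω : Set (Fin n → ℂ)} (hΩ : IsOpen Ω)
    (h : ℕ → (Fin n → ℂ) → ℂ) (hd : ∀ j, DifferentiableOn ℂ (h j) Ω)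
    (hb : ∀ z ∈ Ω, ∃ δ : ℝ, 0 < δ ∧ ball z (2 * δ) ⊆ Ω ∧ ∃ C : ℝ≥0,
      ∀ j, ∫⁻ w in ball z (2 * δ), ‖h j w‖ₑ ^ 2 ≤ C)
    (v : (Fin n → ℂ) → ℂ)
    (hv : ∀ᵐ z ∂(volume.restrict Ω : Measure (Fin n → ℂ)), Tendsto (fun j => h j z) atTop (𝓝 (v z))) :
    ∃ u : (Fin n → ℂ) → ℂ, DifferentiableOn ℂ u Ω ∧ v =ᵐ[volume.restrict Ω] u := by
  have hbd : ∀ z ∈ Ω, ∃ δ : ℝ, 0 < δ ∧ ball z δ ⊆ Ω ∧
      ∃ B : ℝ, 0 ≤ B ∧ ∀ j, ∀ w ∈ ball z δ, ‖h j w‖ ≤ B := by
    intro z hz
    obtain ⟨δ, hδ, hsub, C, hC⟩ := hb z hz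
    refine ⟨δ, hδ, (ball_subset_ball (by linarith)).trans hsub, ?_⟩
    set m : ℝ≥0∞ := (volume : Measure (Fin n → ℂ)) (ball 0 δ) with hm
    have hm0 : m ≠ 0 := (measure_ball_pos _ _ hδ).ne'
    have hmt : m ≠ ⊤ := measure_ball_lt_top.ne
    refine ⟨√((C / m : ℝ≥0∞).toReal), Real.sqrt_nonneg _, fun j w hw => ?_⟩
    have hsubw : ball w δ ⊆ ball z (2 * δ) := by
      intro y hy
      have h1 := mem_ball.1 hy
      have h2 := mem_ball.1 hw
      have := dist_triangle y w z
      exact mem_ball.2 (by linarith)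
    have h1 := sub_mean (F := Fin n → ℂ) volume w δ (h j) ((hd j).mono (hsubw.trans hsub))
    rw [Measure.addHaar_ball_center] at h1
    have h2 : ‖h j w‖ₑ ^ 2 * m ≤ C :=
      h1.trans ((lintegral_mono_set hsubw).trans (hC j))
    have h3 : ‖h j w‖ₑ ^ 2 ≤ C / m := (ENNReal.le_div_iff_mul_le (Or.inl hm0) (Or.inl hmt)).2 h2
    have h4 : (C / m : ℝ≥0∞) ≠ ⊤ := ENNReal.div_ne_top ENNReal.coe_ne_top hm0
    have h5 := ENNReal.toReal_mono h4 h3
    rw [ENNReal.toReal_pow, toReal_enorm] at h5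
    exact Real.le_sqrt_of_sq_le h5
  obtain ⟨φ, hφ, g, hg⟩ := montel_gen Ω hΩ h hd hbd
  have hK := (tendstoLocallyUniformlyOn_iff_forall_isCompact hΩ).1 hg
  have hgd : DifferentiableOn ℂ g Ω := by
    intro z hz
    obtain ⟨ε, hε, hsub⟩ := Metric.nhds_basis_closedBall.mem_iff.1 (hΩ.mem_nhds hz)
    have h1 : TendstoUniformlyOn (fun j => h (φ j)) g atTop (ball z ε) :=
      (hK _ hsub (isCompact_closedBall z ε)).mono ball_subset_closedBall
    have h2 := Pool.Agent.Helper857.differentiableOn_of_tendstoUniformlyOn_ball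
      (fun j => (hd (φ j)).mono (ball_subset_closedBall.trans hsub)) h1
    exact ((h2 z (mem_ball_self hε)).differentiableAt (ball_mem_nhds _ hε)).differentiableWithinAt
  refine ⟨g, hgd, ?_⟩
  filter_upwards [hv, ae_restrict_mem hΩ.measurableSet] with z hz hzΩ
  have h1 : Tendsto (fun j => h (φ j) z) atTop (𝓝 (g z)) := hg.tendsto_at hzΩ
  have h2 : Tendsto (fun j => h (φ j) z) atTop (𝓝 (v z)) := hz.comp hφ.tendsto_atTop
  exact tendsto_nhds_unique h2 h1

/-- identity theorem: a holomorphic function on a connected open set of `ℂⁿ` which vanishes on a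
nonempty open subset vanishes everywhere -/
theorem eq_zero_of_eqOn_open {Ω : Set (Fin n → ℂ)} (hΩ : IsOpen Ω) (hc : IsPreconnected Ω)
    {f : (Fin n → ℂ) → ℂ} (hf : DifferentiableOn ℂ f Ω) {z₀ : Fin n → ℂ} (hz₀ : z₀ ∈ Ω)
    (h0 : f =ᶠ[𝓝 z₀] 0) : ∀ z ∈ Ω, f z = 0 := by
  set U : Set (Fin n → ℂ) := {z | f =ᶠ[𝓝 z] 0} with hU
  have hUo : IsOpen U := by
    rw [isOpen_iff_mem_nhds]
    intro z hz
    exact (eventually_eventually_nhds.2 hz)
  have key : ∀ z ∈ Ω, z ∈ closure U → z ∈ U := by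
    intro z hz hzc
    obtain ⟨ε, hε, hsub⟩ := Metric.isOpen_iff.1 hΩ z hz
    obtain ⟨p, hpU, hpz⟩ := Metric.mem_closure_iff.1 hzc ε hε
    rw [dist_comm] at hpz
    have hpb : p ∈ ball z ε := hpz
    refine Filter.eventually_of_mem (ball_mem_nhds z hε) ?_
    intro w hw
    -- the line from `p` to `w`
    have hcont : Continuous (fun t : ℂ => p + t • (w - p)) := by fun_prop
    have hopen : IsOpen {t : ℂ | p + t • (w - p) ∈ ball z ε} := isOpen_ball.preimage hcont
    have han : AnalyticOnNhd ℂ (fun t : ℂ => f (p + t • (w - p)))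
        {t : ℂ | p + t • (w - p) ∈ ball z ε} := by
      refine DifferentiableOn.analyticOnNhd ?_ hopen
      intro t ht
      have h1 : DifferentiableAt ℂ f (p + t • (w - p)) :=
        (hf _ (hsub ht)).differentiableAt (hΩ.mem_nhds (hsub ht))
      have h2 : DifferentiableAt ℂ (fun t : ℂ => p + t • (w - p)) t := by fun_prop
      exact (DifferentiableAt.comp t h1 h2).differentiableWithinAt
    have hconv : Convex ℝ {t : ℂ | p + t • (w - p) ∈ ball z ε} := by
      intro s hs t ht a b ha hb hab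
      have h1 := (convex_ball z ε) hs ht ha hb hab
      have e : a • (p + s • (w - p)) + b • (p + t • (w - p)) = p + (a • s + b • t) • (w - p) := by
        funext j
        simp only [Pi.add_apply, Pi.smul_apply, smul_eq_mul, Complex.real_smul, Pi.sub_apply]
        have : (a : ℂ) + b = 1 := by exact_mod_cast hab
        linear_combination (p j) * this
      show p + (a • s + b • t) • (w - p) ∈ ball z ε
      rw [← e]; exact h1
    have h0mem : (0 : ℂ) ∈ {t : ℂ | p + t • (w - p) ∈ ball z ε} := by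
      show p + (0 : ℂ) • (w - p) ∈ ball z ε
      rw [zero_smul, add_zero]; exact hpb
    have h1mem : (1 : ℂ) ∈ {t : ℂ | p + t • (w - p) ∈ ball z ε} := by
      show p + (1 : ℂ) • (w - p) ∈ ball z ε
      rw [one_smul, add_sub_cancel]; exact hw
    have hev : (fun t : ℂ => f (p + t • (w - p))) =ᶠ[𝓝 0] 0 := by
      have h3 : Tendsto (fun t : ℂ => p + t • (w - p)) (𝓝 0) (𝓝 p) := by
        have := hcont.tendsto 0
        simpa using this
      exact h3.eventually hpU
    have := han.eqOn_zero_of_preconnected_of_eventuallyEq_zero hconv.isPreconnected h0mem hev h1mem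
    simpa using this
  have hsubU : Ω ⊆ U := by
    have h1 := hc.subset_of_closure_inter_subset hUo ⟨z₀, hz₀, h0⟩ (fun z hz => key z hz.2 hz.1)
    exact h1
  intro z hz
  exact (hsubU hz).self_of_nhds

end Pool.Agent.W738.HS
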