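import Pool.Agent.W738.HS.Torus

/-!
The Bergman space of an open subset of `ℂⁿ` and Hankel operators with conjugate holomorphic symbol.
-/

set_option autoImplicit false

open MeasureTheory Topology Filter Set Metric
open scoped ENNReal NNReal ContDiff ComplexConjugate

namespace Pool.Agent.W738.HS

variable {n : ℕ}

theorem mem_bergman {Ω : Set (Fin n → ℂ)} {g : L2 Ω} :
    g ∈ bergman Ω ↔ ∃ G : (Fin n → ℂ) → ℂ, DifferentiableOn ℂ G Ω ∧ g =ᵐ[volume.restrict Ω] G :=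
  Iff.rfl

theorem lintegral_eq_norm_sq {Ω : Set (Fin n → ℂ)} (g : L2 Ω) :
    ∫⁻ z in Ω, ‖g z‖ₑ ^ 2 = ENNReal.ofReal (‖g‖ ^ 2) := by
  rw [Lp.norm_def, eLpNorm_eq_lintegral_rpow_enorm_toReal (by norm_num) (by norm_num)]
  rw [ENNReal.ofReal_pow ENNReal.toReal_nonneg, ENNReal.ofReal_toReal]
  · rw [← ENNReal.rpow_natCast, ← ENNReal.rpow_mul]
    simp
  · have := (Lp.memLp g).2
    rw [eLpNorm_eq_lintegral_rpow_enorm_toReal (by norm_num) (by norm_num)] at this
    exact this.ne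

/-- a convergent sequence in `L²` has an almost everywhere convergent subsequence -/
theorem exists_ae_subseq {Ω : Set (Fin n → ℂ)} {g : ℕ → L2 Ω} {g0 : L2 Ω}
    (h : Tendsto g atTop (𝓝 g0)) : ∃ φ : ℕ → ℕ, StrictMono φ ∧
      ∀ᵐ z ∂(volume.restrict Ω : Measure (Fin n → ℂ)), Tendsto (fun j => g (φ j) z) atTop (𝓝 (g0 z)) := by
  have h1 := tendstoInMeasure_of_tendsto_Lp h
  exact h1.exists_seq_tendsto_ae

theorem isClosed_bergman {Ω : Set (Fin n → ℂ)} (hΩ : IsOpen Ω) :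
    IsClosed (bergman Ω : Set (L2 Ω)) := by
  rw [← isSeqClosed_iff_isClosed]
  intro g g0 hg hlim
  obtain ⟨φ, hφ, hae⟩ := exists_ae_subseq hlim
  have hbd : ∃ C : ℝ, ∀ j, ‖g j‖ ≤ C := by
    obtain ⟨C, hC⟩ := (Metric.isBounded_range_of_tendsto g hlim).exists_norm_le
    exact ⟨C, fun j => hC _ ⟨j, rfl⟩⟩
  obtain ⟨C, hC⟩ := hbd
  choose G hG hgG using fun j => mem_bergman.1 (hg j)
  obtain ⟨u, hu, hgu⟩ := exists_holo_of_ae_tendsto hΩ (fun j => G (φ j)) (fun j => hG (φ j))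
    (fun z hz => by
      obtain ⟨ε, hε, hsub⟩ := Metric.isOpen_iff.1 hΩ z hz
      have h2 : ball z (2 * (ε / 2)) ⊆ Ω := by rwa [mul_div_cancel₀ _ (two_ne_zero)]
      refine ⟨ε / 2, by positivity, h2, (C ^ 2).toNNReal, fun j => ?_⟩
      have h3 : ∫⁻ w in ball z (2 * (ε / 2)), ‖G (φ j) w‖ₑ ^ 2 ≤ ∫⁻ w in Ω, ‖G (φ j) w‖ₑ ^ 2 :=
        lintegral_mono_set h2
      refine h3.trans ?_
      have h4 : ∫⁻ w in Ω, ‖G (φ j) w‖ₑ ^ 2 = ∫⁻ w in Ω, ‖g (φ j) w‖ₑ ^ 2 := by
        apply lintegral_congr_ae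
        filter_upwards [hgG (φ j)] with w hw
        rw [hw]
      rw [h4, lintegral_eq_norm_sq]
      apply ENNReal.ofReal_le_ofReal
      have := hC (φ j)
      gcongr)
    (fun z => g0 z) (by
      have h5 : ∀ᵐ z ∂(volume.restrict Ω : Measure (Fin n → ℂ)), ∀ j, g (φ j) z = G (φ j) z :=
        ae_all_iff.2 fun j => hgG (φ j)
      filter_upwards [hae, h5] with z h6 h7
      simpa only [h7] using h6)
  exact ⟨u, hu, hgu⟩

theorem closure_bergman {Ω : Set (Fin n → ℂ)} (hΩ : IsOpen Ω) :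
    (bergman Ω).topologicalClosure = bergman Ω :=
  (isClosed_bergman hΩ).submodule_topologicalClosure_eq

/-- the values of an extension of a Hankel operator are orthogonal to the Bergman space -/
theorem inner_eq_zero {Ω : Set (Fin n → ℂ)} {f : (Fin n → ℂ) → ℂ}
    {T : bergman Ω →L[ℂ] L2 Ω} (hdense : Dense (hankelDomain Ω f)) (hT : ExtendsHankel Ω f T)
    (g : bergman Ω) {h : L2 Ω} (hh : h ∈ bergman Ω) : inner ℂ h (T g) = 0 := by
  have hcl : IsClosed {g : bergman Ω | inner ℂ h (T g) = 0} :=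
    isClosed_eq (by fun_prop) continuous_const
  have hsub : hankelDomain Ω f ⊆ {g : bergman Ω | inner ℂ h (T g) = 0} := by
    intro g hg
    simp only [mem_ofPred_eq]
    rw [hT g hg]
    have h1 := Submodule.sub_starProjection_mem_orthogonal (K := (bergman Ω).topologicalClosure) (hg.toLp _)
    exact (Submodule.mem_orthogonal _ _).1 h1 h ((bergman Ω).le_topologicalClosure hh)
  have h2 := hcl.closure_subset_iff.2 hsub
  exact h2 (hdense g)

/-- the structure of the values of an extension of a Hankel operator -/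
theorem exists_holo_part {Ω : Set (Fin n → ℂ)} (hΩ : IsOpen Ω) {f : (Fin n → ℂ) → ℂ}
    (hf : DifferentiableOn ℂ f Ω)
    {T : bergman Ω →L[ℂ] L2 Ω} (hdense : Dense (hankelDomain Ω f)) (hT : ExtendsHankel Ω f T)
    (g : bergman Ω) : ∃ u : (Fin n → ℂ) → ℂ, DifferentiableOn ℂ u Ω ∧
      T g =ᵐ[volume.restrict Ω] fun z => conj (f z) * (g : L2 Ω) z - u z := by
  obtain ⟨a, haD, ha⟩ := mem_closure_iff_seq_limit.1 (hdense g)
  have ha' : Tendsto (fun j => ((a j : bergman Ω) : L2 Ω)) atTop (𝓝 (g : L2 Ω)) :=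
    (continuous_subtype_val.tendsto g).comp ha
  obtain ⟨φ, hφ, hae⟩ := exists_ae_subseq ha'
  have hTa : Tendsto (fun j => T (a (φ j))) atTop (𝓝 (T g)) :=
    (T.continuous.tendsto g).comp (ha.comp hφ.tendsto_atTop)
  obtain ⟨ψ, hψ, hae2⟩ := exists_ae_subseq hTa
  set b : ℕ → bergman Ω := fun j => a (φ (ψ j)) with hb
  have hbD : ∀ j, b j ∈ hankelDomain Ω f := fun j => haD _
  have hb1 : ∀ᵐ z ∂(volume.restrict Ω : Measure (Fin n → ℂ)),
      Tendsto (fun j => (b j : L2 Ω) z) atTop (𝓝 ((g : L2 Ω) z)) := by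
    filter_upwards [hae] with z hz
    exact hz.comp hψ.tendsto_atTop
  have hP : ∀ j, (bergman Ω).topologicalClosure.starProjection ((hbD j).toLp _) ∈ bergman Ω := by
    intro j
    have h1 := Submodule.starProjection_apply_mem (bergman Ω).topologicalClosure ((hbD j).toLp _)
    exact (closure_bergman hΩ).le h1
  choose u hu hPu using fun j => mem_bergman.1 (hP j)
  have hub : ∀ j, T (b j) =ᵐ[volume.restrict Ω] fun z => conj (f z) * (b j : L2 Ω) z - u j z := by
    intro j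
    have h1 := hT (b j) (hbD j)
    have h2 : T (b j) =ᵐ[volume.restrict Ω]
        ((hbD j).toLp _ : L2 Ω) - ((bergman Ω).topologicalClosure.starProjection ((hbD j).toLp _) : L2 Ω) := by
      rw [h1]; exact Lp.coeFn_sub _ _
    filter_upwards [h2, (hbD j).coeFn_toLp, hPu j] with z h3 h4 h5
    rw [h3, Pi.sub_apply, h4, h5]
  have hbdd : ∃ C : ℝ, 0 ≤ C ∧ ∀ j, ‖b j‖ ≤ C := by
    obtain ⟨C, hC⟩ := (Metric.isBounded_range_of_tendsto a ha).exists_norm_le
    exact ⟨C, (norm_nonneg _).trans (hC _ ⟨0, rfl⟩), fun j => hC _ ⟨_, rfl⟩⟩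
  obtain ⟨C, hC0, hC⟩ := hbdd
  obtain ⟨v, hv, hgv⟩ := exists_holo_of_ae_tendsto hΩ u hu
    (fun z hz => by
      obtain ⟨ε, hε, hsub⟩ := Metric.nhds_basis_closedBall.mem_iff.1 (hΩ.mem_nhds hz)
      obtain ⟨M, hM⟩ := (isCompact_closedBall z ε).exists_bound_of_continuousOn
        (hf.continuousOn.mono hsub)
      have h2 : ball z (2 * (ε / 2)) ⊆ closedBall z ε := by
        rw [mul_div_cancel₀ _ (two_ne_zero)]; exact ball_subset_closedBall
      refine ⟨ε / 2, by positivity, h2.trans hsub,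
        (2 * (|M| ^ 2 * C ^ 2) + 2 * (‖T‖ * C) ^ 2).toNNReal, fun j => ?_⟩
      have h3 : ∫⁻ w in ball z (2 * (ε / 2)), ‖u j w‖ₑ ^ 2 ≤
          ∫⁻ w in ball z (2 * (ε / 2)), (ENNReal.ofReal (2 * |M| ^ 2) * ‖(b j : L2 Ω) w‖ₑ ^ 2 +
            ENNReal.ofReal 2 * ‖T (b j) w‖ₑ ^ 2) := by
        apply lintegral_mono_ae
        have h4 : ∀ᵐ w ∂(volume.restrict (ball z (2 * (ε / 2))) : Measure (Fin n → ℂ)),
            T (b j) w = conj (f w) * (b j : L2 Ω) w - u j w :=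
          ae_restrict_of_ae_restrict_of_subset (h2.trans hsub) (hub j)
        filter_upwards [h4, ae_restrict_mem measurableSet_ball] with w hw hwb
        have h5 : u j w = conj (f w) * (b j : L2 Ω) w - T (b j) w := by rw [hw]; ring
        have h6 : ‖u j w‖ ^ 2 ≤ 2 * |M| ^ 2 * ‖(b j : L2 Ω) w‖ ^ 2 + 2 * ‖T (b j) w‖ ^ 2 := by
          rw [h5]
          have h7 := norm_sub_le (conj (f w) * (b j : L2 Ω) w) (T (b j) w)
          rw [norm_mul, RCLike.norm_conj] at h7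
          have h8 := (hM w (h2 hwb)).trans (le_abs_self M)
          have h9 : ‖f w‖ * ‖(b j : L2 Ω) w‖ ≤ |M| * ‖(b j : L2 Ω) w‖ := by gcongr
          have h10 : ‖conj (f w) * (b j : L2 Ω) w - T (b j) w‖ ≤ |M| * ‖(b j : L2 Ω) w‖ + ‖T (b j) w‖ := by
            linarith
          have h11 : ‖conj (f w) * (b j : L2 Ω) w - T (b j) w‖ ^ 2 ≤
              (|M| * ‖(b j : L2 Ω) w‖ + ‖T (b j) w‖) ^ 2 := by gcongr
          nlinarith [sq_nonneg (|M| * ‖(b j : L2 Ω) w‖ - ‖T (b j) w‖)]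
        have h12 : ∀ x : ℂ, ‖x‖ₑ ^ 2 = ENNReal.ofReal (‖x‖ ^ 2) := by
          intro x
          rw [ENNReal.ofReal_pow (norm_nonneg _), ofReal_norm]
        rw [h12, h12, h12, ← ENNReal.ofReal_mul (by positivity), ← ENNReal.ofReal_mul (by norm_num),
          ← ENNReal.ofReal_add (by positivity) (by positivity)]
        exact ENNReal.ofReal_le_ofReal h6
      refine h3.trans ?_
      refine (lintegral_mono_set (h2.trans hsub)).trans ?_
      have hm1 : AEMeasurable (fun w => ENNReal.ofReal (2 * |M| ^ 2) * ‖(b j : L2 Ω) w‖ₑ ^ 2)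
          (volume.restrict Ω) := by
        exact ((Lp.aestronglyMeasurable (b j : L2 Ω)).enorm.pow_const 2).const_mul _
      rw [lintegral_add_left' hm1,
        lintegral_const_mul'' _ ((Lp.aestronglyMeasurable (b j : L2 Ω)).enorm.pow_const 2),
        lintegral_const_mul'' _ ((Lp.aestronglyMeasurable (T (b j))).enorm.pow_const 2),
        lintegral_eq_norm_sq, lintegral_eq_norm_sq, ← ENNReal.ofReal_mul (by positivity),
        ← ENNReal.ofReal_mul (by norm_num), ← ENNReal.ofReal_add (by positivity) (by positivity)]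
      apply ENNReal.ofReal_le_ofReal
      have h13 : ‖(b j : L2 Ω)‖ ≤ C := hC j
      have h14 : ‖T (b j)‖ ≤ ‖T‖ * C := (T.le_opNorm _).trans (by gcongr; exact hC j)
      have h15 : ‖(b j : L2 Ω)‖ ^ 2 ≤ C ^ 2 := by gcongr
      have h16 : ‖T (b j)‖ ^ 2 ≤ (‖T‖ * C) ^ 2 := by gcongr
      nlinarith [sq_nonneg M, abs_nonneg M, sq_nonneg |M|, mul_le_mul_of_nonneg_left h15 (sq_nonneg |M|)])
    (fun z => conj (f z) * (g : L2 Ω) z - T g z) (by
      have h5 : ∀ᵐ z ∂(volume.restrict Ω : Measure (Fin n → ℂ)), ∀ j,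
          T (b j) z = conj (f z) * (b j : L2 Ω) z - u j z := ae_all_iff.2 fun j => hub j
      filter_upwards [hb1, hae2, h5] with z h6 h7 h8
      have h9 : ∀ j, u j z = conj (f z) * (b j : L2 Ω) z - T (b j) z := by
        intro j; rw [h8 j]; ring
      simp only [h9]
      exact (h6.const_mul _).sub h7)
  refine ⟨v, hv, ?_⟩
  filter_upwards [hgv] with z hz
  rw [← hz]; ring

end Pool.Agent.W738.HS
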