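import Mathlib

/-!
Definitions used in the statement of `MP_dc9318_an.NoHilbertSchmidt`: Reinhardt sets, Bergman spaces
and Hankel operators with conjugate holomorphic symbol.
-/

set_option autoImplicit false

open MeasureTheory
open scoped ComplexConjugate

namespace Pool.Agent.W738.HS

/-- `Ω ⊆ ℂⁿ` is Reinhardt: it is invariant under all rotations
`(z₁, …, zₙ) ↦ (e^{iθ₁} z₁, …, e^{iθₙ} zₙ)`. -/
def IsReinhardt {n : ℕ} (Ω : Set (Fin n → ℂ)) : Prop :=
  ∀ z ∈ Ω, ∀ θ : Fin n → ℝ, (fun j => Complex.exp (θ j * Complex.I) * z j) ∈ Ω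

/-- The subspace of `L²(μ)` spanned by the classes of the functions in the set `H`. For `μ` the
Lebesgue measure on an open set `Ω ⊆ ℂⁿ` and `H` the set of all functions which are holomorphic on
`Ω` it is the Bergman space `A²(Ω)`; these classes then already form a closed subspace
(`A2_eq_bergman`, `isClosed_bergman`). -/
noncomputable def A2 {X : Type} [MeasurableSpace X] (μ : Measure X) (H : Set (X → ℂ)) :
    Submodule ℂ (Lp ℂ 2 μ) :=
  Submodule.span ℂ {g | ∃ G ∈ H, g =ᵐ[μ] G}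

/-- The graph of the multiplication by `f̄` in `L²(μ)`: `g` and `φ` are elements of `L²(μ)` with
`φ = f̄ g`. -/
def ConjMul {X : Type} [MeasurableSpace X] (μ : Measure X) (f : X → ℂ) (g φ : Lp ℂ 2 μ) : Prop :=
  φ =ᵐ[μ] fun x => conj (f x) * g x

/-- Let `K` be a (closed) subspace of `E`, `P` the orthogonal projection onto `K`, and `M` the graph
of an operator in `E`. The operator `g ↦ (I - P) (M g)`, defined for those `g` in `K` for which `M g`
exists, is Hilbert-Schmidt: its domain is dense in `K`, and it extends to a bounded operator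
`T : K → E` with `∑ ‖T e_k‖² < ∞` for an orthonormal basis `(e_k)` of `K`. Here `T g = (I - P) φ` is
expressed by: `T g` is orthogonal to `K` and `φ - T g` belongs to `K`. -/
def IsHSCompression {E : Type} [NormedAddCommGroup E] [InnerProductSpace ℂ E]
    (K : Submodule ℂ E) (M : E → E → Prop) : Prop :=
  Dense {g : K | ∃ φ, M g φ} ∧
  ∃ T : K →L[ℂ] E, (∀ (g : K) (φ : E), M g φ → T g ∈ Kᗮ ∧ φ - T g ∈ K) ∧
    ∃ (ι : Type) (b : HilbertBasis ι ℂ K), Summable fun i => ‖T (b i)‖ ^ 2

/-- The operator `g ↦ (I - P) (M g)` of `IsHSCompression` is zero: `M g`, where it exists, belongs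
to `K` for all `g` in `K`. -/
def CompressionIsZero {E : Type} [NormedAddCommGroup E] [InnerProductSpace ℂ E]
    (K : Submodule ℂ E) (M : E → E → Prop) : Prop :=
  ∀ g ∈ K, ∀ φ, M g φ → φ ∈ K

/-- The Hankel operator `H_{f̄} g = (I - P) (f̄ g)`, with domain
`{g ∈ A²(Ω) : f̄ g ∈ L²(Ω)}`, is Hilbert-Schmidt. -/
def HankelIsHilbertSchmidt {n : ℕ} (Ω : Set (Fin n → ℂ)) (f : (Fin n → ℂ) → ℂ) : Prop :=
  IsHSCompression (A2 (volume.restrict Ω) {G | DifferentiableOn ℂ G Ω})
    (ConjMul (volume.restrict Ω) f)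

/-- The Hankel operator `H_{f̄} g = (I - P) (f̄ g)`, with domain
`{g ∈ A²(Ω) : f̄ g ∈ L²(Ω)}`, is zero. -/
def HankelIsZero {n : ℕ} (Ω : Set (Fin n → ℂ)) (f : (Fin n → ℂ) → ℂ) : Prop :=
  CompressionIsZero (A2 (volume.restrict Ω) {G | DifferentiableOn ℂ G Ω})
    (ConjMul (volume.restrict Ω) f)

end Pool.Agent.W738.HS
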