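import Pool.Agent.W738.HS.Montel
import Pool.Agent.W738.HS.Defs
import Pool.Agent.HopfPinch.AnS1

/-!
The action of the torus on `ℂⁿ` and averages over the torus.
-/

set_option autoImplicit false

open MeasureTheory Topology Filter Set Metric
open scoped ENNReal NNReal ContDiff ComplexConjugate

namespace Pool.Agent.W738.HS

/-- the torus -/
abbrev Tor (n : ℕ) : Type := UnitAddTorus (Fin n)

/-- the normalised Haar measure of the torus -/
noncomputable def haar (n : ℕ) : Measure (Tor n) := Measure.pi (fun _ => AddCircle.haarAddCircle)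

instance {n : ℕ} : IsProbabilityMeasure (haar n) := by unfold haar; infer_instance

instance {n : ℕ} : (haar n).IsAddLeftInvariant := by
  unfold haar; infer_instance

variable {n : ℕ}

/-- the action of the torus on `ℂⁿ` -/
noncomputable def act (t : Tor n) (z : Fin n → ℂ) : Fin n → ℂ := fun j => fourier 1 (t j) * z j

theorem act_apply (t : Tor n) (z : Fin n → ℂ) (j : Fin n) : act t z j = fourier 1 (t j) * z j := rfl

theorem norm_fourier_one (x : UnitAddCircle) : ‖(fourier 1 x : ℂ)‖ = 1 := by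
  rw [fourier_apply]; exact Circle.norm_coe _

theorem act_add (s t : Tor n) (z : Fin n → ℂ) : act (s + t) z = act s (act t z) := by
  funext j
  simp only [act, Pi.add_apply, fourier_one, AddCircle.toCircle_add, Circle.coe_mul]
  ring

theorem act_zero (z : Fin n → ℂ) : act 0 z = z := by
  funext j
  simp [act]

theorem norm_act (t : Tor n) (z : Fin n → ℂ) : ‖act t z‖ = ‖z‖ := by
  have : ∀ j, ‖act t z j‖ = ‖z j‖ := by
    intro j
    rw [act_apply, norm_mul, norm_fourier_one, one_mul]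
  simp only [Pi.norm_def]
  congr 1
  apply Finset.sup_congr rfl
  intro j _
  ext
  exact this j

theorem continuous_act : Continuous (fun p : Tor n × (Fin n → ℂ) => act p.1 p.2) := by
  unfold act
  apply continuous_pi
  intro j
  fun_prop

theorem act_mem {Ω : Set (Fin n → ℂ)} (hR : IsReinhardt Ω) {z : Fin n → ℂ} (hz : z ∈ Ω)
    (t : Tor n) : act t z ∈ Ω := by
  have h1 : ∀ j, ∃ x : ℝ, (x : UnitAddCircle) = t j := fun j => QuotientAddGroup.mk_surjective (t j)
  choose x hx using h1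
  have h2 := hR z hz (fun j => 2 * Real.pi * x j)
  convert h2 using 2 with j
  rw [act_apply, ← hx j, fourier_coe_apply]
  congr 2
  push_cast
  ring

theorem act_mem_iff {Ω : Set (Fin n → ℂ)} (hR : IsReinhardt Ω) {z : Fin n → ℂ}
    (t : Tor n) : act t z ∈ Ω ↔ z ∈ Ω := by
  refine ⟨fun h => ?_, fun h => act_mem hR h t⟩
  have h1 := act_mem hR h (-t)
  rwa [← act_add, neg_add_cancel, act_zero] at h1

theorem act_mp_volume (t : Tor n) : MeasurePreserving (act t) (volume : Measure (Fin n → ℂ)) volume := by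
  have h : ∀ j : Fin n, MeasurePreserving (fun w : ℂ => (fourier 1 (t j) : ℂ) * w) volume volume := by
    intro j
    have h1 := rot (F := ℂ) volume (fourier 1 (t j) : ℂ) (norm_fourier_one _)
    simpa only [smul_eq_mul] using h1
  exact volume_preserving_pi h

theorem act_mp {Ω : Set (Fin n → ℂ)} (hΩ : MeasurableSet Ω) (hR : IsReinhardt Ω) (t : Tor n) :
    MeasurePreserving (act t) (volume.restrict Ω : Measure (Fin n → ℂ)) (volume.restrict Ω) := by
  have h := (act_mp_volume t).restrict_preimage hΩ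
  have h1 : act t ⁻¹' Ω = Ω := by
    ext z
    exact act_mem_iff hR t
  rwa [h1] at h

/-- the whole action is measure preserving -/
theorem actp_mp {Ω : Set (Fin n → ℂ)} (hΩ : MeasurableSet Ω) (hR : IsReinhardt Ω) :
    MeasurePreserving (fun p : Tor n × (Fin n → ℂ) => act p.1 p.2)
      ((haar n).prod (volume.restrict Ω)) (volume.restrict Ω) := by
  have hsk : MeasurePreserving (fun p : Tor n × (Fin n → ℂ) => (p.1, act p.1 p.2))
      ((haar n).prod (volume.restrict Ω)) ((haar n).prod (volume.restrict Ω)) :=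
    (MeasurePreserving.id (haar n)).skew_product (g := fun t z => act t z) continuous_act.measurable
      (Eventually.of_forall fun t => (act_mp hΩ hR t).map_eq)
  have h2 : MeasurePreserving (Prod.snd : Tor n × (Fin n → ℂ) → (Fin n → ℂ))
      ((haar n).prod (volume.restrict Ω)) (volume.restrict Ω) := measurePreserving_snd
  exact h2.comp hsk

/-- the component of weight `γ` of a function -/
noncomputable def avg (γ : Fin n → ℤ) (φ : (Fin n → ℂ) → ℂ) (z : Fin n → ℂ) : ℂ :=
  ∫ t, conj (UnitAddTorus.mFourier γ t) * φ (act t z) ∂(haar n)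

theorem norm_mFourier (γ : Fin n → ℤ) (t : Tor n) : ‖UnitAddTorus.mFourier γ t‖ = 1 := by
  simp only [UnitAddTorus.mFourier, ContinuousMap.coe_mk, norm_prod]
  apply Finset.prod_eq_one
  intro j _
  rw [fourier_apply]; exact Circle.norm_coe _

theorem enorm_mFourier (γ : Fin n → ℤ) (t : Tor n) : ‖UnitAddTorus.mFourier γ t‖ₑ = 1 := by
  rw [← ofReal_norm, norm_mFourier, ENNReal.ofReal_one]

theorem mFourier_mul_conj (γ : Fin n → ℤ) (t : Tor n) :
    UnitAddTorus.mFourier γ t * conj (UnitAddTorus.mFourier γ t) = 1 := by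
  rw [Complex.mul_conj, Complex.normSq_eq_norm_sq, norm_mFourier]
  simp

/-- `(t, z) ↦ φ (t · z)` is measurable -/
theorem comp_act_aesm {Ω : Set (Fin n → ℂ)} (hΩ : MeasurableSet Ω) (hR : IsReinhardt Ω)
    {φ : (Fin n → ℂ) → ℂ} (hφ : AEStronglyMeasurable φ (volume.restrict Ω)) :
    AEStronglyMeasurable (fun p : Tor n × (Fin n → ℂ) => φ (act p.1 p.2))
      ((haar n).prod (volume.restrict Ω)) :=
  hφ.comp_measurePreserving (actp_mp hΩ hR)

theorem avg_aesm {Ω : Set (Fin n → ℂ)} (hΩ : MeasurableSet Ω) (hR : IsReinhardt Ω)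
    {φ : (Fin n → ℂ) → ℂ} (hφ : AEStronglyMeasurable φ (volume.restrict Ω)) (γ : Fin n → ℤ) :
    AEStronglyMeasurable (avg γ φ) (volume.restrict Ω) := by
  have h1 : AEStronglyMeasurable (fun p : Tor n × (Fin n → ℂ) =>
      conj (UnitAddTorus.mFourier γ p.1) * φ (act p.1 p.2))
      ((haar n).prod (volume.restrict Ω)) := by
    refine AEStronglyMeasurable.mul ?_ (comp_act_aesm hΩ hR hφ)
    apply Continuous.aestronglyMeasurable
    fun_prop
  exact h1.prod_swap.integral_prod_right'

/-- Jensen's inequality for squares -/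
theorem sq_lintegral_le {α : Type*} [MeasurableSpace α] (ν : Measure α) [IsProbabilityMeasure ν]
    {g : α → ℂ} (hg : AEStronglyMeasurable g ν) : (∫⁻ t, ‖g t‖ₑ ∂ν) ^ 2 ≤ ∫⁻ t, ‖g t‖ₑ ^ 2 ∂ν := by
  have h1 := eLpNorm_le_eLpNorm_of_exponent_le (μ := ν) (p := 1) (q := 2) (by norm_num) hg
  rw [eLpNorm_one_eq_lintegral_enorm,
    eLpNorm_eq_lintegral_rpow_enorm_toReal (by norm_num) (by norm_num)] at h1
  have h2 : (∫⁻ t, ‖g t‖ₑ ∂ν) ^ 2 ≤
      ((∫⁻ t, ‖g t‖ₑ ^ (2 : ℝ≥0∞).toReal ∂ν) ^ (1 / (2 : ℝ≥0∞).toReal)) ^ 2 := by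
    gcongr
  refine h2.trans (le_of_eq ?_)
  rw [← ENNReal.rpow_natCast, ← ENNReal.rpow_mul]
  simp

/-- averaging does not increase the `L²` norm -/
theorem lintegral_avg_le {Ω : Set (Fin n → ℂ)} (hΩ : MeasurableSet Ω) (hR : IsReinhardt Ω)
    {φ : (Fin n → ℂ) → ℂ} (hφ : AEStronglyMeasurable φ (volume.restrict Ω)) (γ : Fin n → ℤ) :
    ∫⁻ z in Ω, ‖avg γ φ z‖ₑ ^ 2 ≤ ∫⁻ z in Ω, ‖φ z‖ₑ ^ 2 := by
  have hm := comp_act_aesm hΩ hR hφ
  have hm2 : AEMeasurable (fun p : Tor n × (Fin n → ℂ) => ‖φ (act p.1 p.2)‖ₑ ^ 2)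
      ((haar n).prod (volume.restrict Ω)) := hm.enorm.pow_const 2
  have h1 : ∫⁻ z in Ω, ‖φ z‖ₑ ^ 2 =
      ∫⁻ p, ‖φ (act p.1 p.2)‖ₑ ^ 2 ∂((haar n).prod (volume.restrict Ω)) := by
    have h2 := (actp_mp hΩ hR).map_eq
    have h3 : AEMeasurable (fun z => ‖φ z‖ₑ ^ 2) (volume.restrict Ω) := hφ.enorm.pow_const 2
    calc ∫⁻ z in Ω, ‖φ z‖ₑ ^ 2 = ∫⁻ z, ‖φ z‖ₑ ^ 2
          ∂(Measure.map (fun p : Tor n × (Fin n → ℂ) => act p.1 p.2)
            ((haar n).prod (volume.restrict Ω))) := by rw [h2]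
      _ = _ := lintegral_map' (by rw [h2]; exact h3) (actp_mp hΩ hR).measurable.aemeasurable
  rw [h1, lintegral_prod_symm _ hm2]
  have hsec : ∀ᵐ z ∂(volume.restrict Ω : Measure (Fin n → ℂ)),
      AEStronglyMeasurable (fun t => φ (act t z)) (haar n) := hm.prod_swap.prodMk_left
  apply lintegral_mono_ae
  filter_upwards [hsec] with z hz
  have h4 : ‖avg γ φ z‖ₑ ≤ ∫⁻ t, ‖φ (act t z)‖ₑ ∂(haar n) := by
    refine (enorm_integral_le_lintegral_enorm _).trans (le_of_eq ?_)
    apply lintegral_congr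
    intro t
    rw [enorm_mul, RCLike.enorm_conj, enorm_mFourier, one_mul]
  calc ‖avg γ φ z‖ₑ ^ 2 ≤ (∫⁻ t, ‖φ (act t z)‖ₑ ∂(haar n)) ^ 2 := by gcongr
    _ ≤ _ := sq_lintegral_le _ hz

theorem memLp_two_iff {μ : Measure (Fin n → ℂ)} {φ : (Fin n → ℂ) → ℂ}
    (hφ : AEStronglyMeasurable φ μ) : MemLp φ 2 μ ↔ ∫⁻ z, ‖φ z‖ₑ ^ 2 ∂μ < ⊤ := by
  rw [MemLp, and_iff_right hφ, eLpNorm_lt_top_iff_lintegral_rpow_enorm_lt_top (by norm_num) (by norm_num)]
  simp

theorem avg_memLp {Ω : Set (Fin n → ℂ)} (hΩ : MeasurableSet Ω) (hR : IsReinhardt Ω)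
    {φ : (Fin n → ℂ) → ℂ} (hφ : MemLp φ 2 (volume.restrict Ω)) (γ : Fin n → ℤ) :
    MemLp (avg γ φ) 2 (volume.restrict Ω) := by
  rw [memLp_two_iff (avg_aesm hΩ hR hφ.1 γ)]
  exact (lintegral_avg_le hΩ hR hφ.1 γ).trans_lt ((memLp_two_iff hφ.1).1 hφ)

/-- pairing with a function of weight `γ` only sees the component of weight `γ` -/
theorem integral_avg {Ω : Set (Fin n → ℂ)} (hΩ : MeasurableSet Ω) (hR : IsReinhardt Ω)
    {φ ψ : (Fin n → ℂ) → ℂ} {γ : Fin n → ℤ}
    (hint : Integrable (fun z => conj (ψ z) * φ z) (volume.restrict Ω))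
    (hψ : ∀ t : Tor n, ∀ z ∈ Ω, ψ (act t z) = UnitAddTorus.mFourier γ t * ψ z) :
    ∫ z in Ω, conj (ψ z) * φ z = ∫ z in Ω, conj (ψ z) * avg γ φ z := by
  set F : (Fin n → ℂ) → ℂ := fun z => conj (ψ z) * φ z with hF
  have h2 := (actp_mp hΩ hR).map_eq
  have hi : Integrable (fun p : Tor n × (Fin n → ℂ) => F (act p.1 p.2))
      ((haar n).prod (volume.restrict Ω)) := (actp_mp hΩ hR).integrable_comp_of_integrable hint
  calc ∫ z in Ω, F z = ∫ z, F z
        ∂(Measure.map (fun p : Tor n × (Fin n → ℂ) => act p.1 p.2)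
          ((haar n).prod (volume.restrict Ω))) := by rw [h2]
    _ = ∫ p : Tor n × (Fin n → ℂ), F (act p.1 p.2) ∂((haar n).prod (volume.restrict Ω)) :=
        integral_map (actp_mp hΩ hR).measurable.aemeasurable (by rw [h2]; exact hint.1)
    _ = ∫ z in Ω, ∫ t, F (act t z) ∂(haar n) := integral_prod_symm _ hi
    _ = _ := by
      apply setIntegral_congr_fun hΩ
      intro z hz
      simp only [avg, hF]
      rw [← integral_const_mul]
      apply integral_congr_ae
      refine Eventually.of_forall (fun t => ?_)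
      simp only
      rw [hψ t z hz, map_mul]
      ring

/-- monomials with integer exponents -/
noncomputable def mon (γ : Fin n → ℤ) (z : Fin n → ℂ) : ℂ := ∏ j, z j ^ γ j

theorem mon_act (γ : Fin n → ℤ) (t : Tor n) (z : Fin n → ℂ) :
    mon γ (act t z) = UnitAddTorus.mFourier γ t * mon γ z := by
  simp only [mon, act, UnitAddTorus.mFourier, ContinuousMap.coe_mk]
  rw [← Finset.prod_mul_distrib]
  apply Finset.prod_congr rfl
  intro j _
  rw [mul_zpow]
  congr 1
  rw [fourier_apply, fourier_apply, one_zsmul, AddCircle.toCircle_zsmul, Circle.coe_zpow]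

theorem mon_ne_zero (γ : Fin n → ℤ) {z : Fin n → ℂ} (hz : ∀ j, z j ≠ 0) : mon γ z ≠ 0 :=
  Finset.prod_ne_zero_iff.2 fun j _ => zpow_ne_zero _ (hz j)

theorem mon_add (γ δ : Fin n → ℤ) {z : Fin n → ℂ} (hz : ∀ j, z j ≠ 0) :
    mon (γ + δ) z = mon γ z * mon δ z := by
  simp only [mon, Pi.add_apply]
  rw [← Finset.prod_mul_distrib]
  exact Finset.prod_congr rfl fun j _ => zpow_add₀ (hz j) _ _

theorem mon_zero (z : Fin n → ℂ) : mon 0 z = 1 := by simp [mon]

theorem mon_neg (γ : Fin n → ℤ) (z : Fin n → ℂ) : mon (-γ) z = (mon γ z)⁻¹ := by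
  simp only [mon, Pi.neg_apply, zpow_neg, Finset.prod_inv_distrib]

/-- almost every point has nonzero coordinates -/
theorem ae_ne_zero : ∀ᵐ z ∂(volume : Measure (Fin n → ℂ)), ∀ j, z j ≠ 0 := by
  rw [ae_all_iff]
  intro j
  exact Measure.ae_eval_ne (μ := fun _ => (volume : Measure ℂ)) j 0

theorem avg_act {φ : (Fin n → ℂ) → ℂ} (γ : Fin n → ℤ) (s : Tor n) (z : Fin n → ℂ) :
    avg γ φ (act s z) = UnitAddTorus.mFourier γ s * avg γ φ z := by
  simp only [avg]
  rw [← integral_const_mul]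
  have h1 := integral_add_right_eq_self (μ := haar n)
    (fun t => UnitAddTorus.mFourier γ s * (conj (UnitAddTorus.mFourier γ t) * φ (act t z))) s
  rw [← h1]
  apply integral_congr_ae
  refine Eventually.of_forall (fun t => ?_)
  simp only
  have h2 : UnitAddTorus.mFourier γ (t + s) =
      UnitAddTorus.mFourier γ t * UnitAddTorus.mFourier γ s := by
    simp only [UnitAddTorus.mFourier, ContinuousMap.coe_mk]
    rw [← Finset.prod_mul_distrib]
    apply Finset.prod_congr rfl
    intro j _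
    rw [fourier_apply, fourier_apply, fourier_apply, Pi.add_apply, zsmul_add,
      AddCircle.toCircle_add, Circle.coe_mul]
  rw [h2, map_mul, act_add]
  have h3 := mFourier_mul_conj γ s
  linear_combination (-conj (UnitAddTorus.mFourier γ t) * φ (act t (act s z))) * h3

/-- the averages of a holomorphic function are holomorphic -/
theorem avg_differentiableOn {Ω : Set (Fin n → ℂ)} (hΩ : IsOpen Ω) (hR : IsReinhardt Ω)
    {f : (Fin n → ℂ) → ℂ} (hf : DifferentiableOn ℂ f Ω) (γ : Fin n → ℤ) :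
    DifferentiableOn ℂ (avg γ f) Ω := by
  intro z0 hz0
  obtain ⟨r, hr, hsub⟩ := Metric.nhds_basis_closedBall.mem_iff.1 (hΩ.mem_nhds hz0)
  have hK : IsCompact ((fun p : Tor n × (Fin n → ℂ) => act p.1 p.2) '' (univ ×ˢ closedBall z0 r)) :=
    (isCompact_univ.prod (isCompact_closedBall z0 r)).image continuous_act
  have hKΩ : (fun p : Tor n × (Fin n → ℂ) => act p.1 p.2) '' (univ ×ˢ closedBall z0 r) ⊆ Ω := by
    rintro _ ⟨⟨t, z⟩, ⟨-, hz⟩, rfl⟩
    exact act_mem hR (hsub hz) t
  obtain ⟨C, hC⟩ := hK.exists_bound_of_continuousOn (hf.continuousOn.mono hKΩ)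
  have key : DifferentiableOn ℂ (fun z => ∫ t, conj (UnitAddTorus.mFourier γ t) * f (act t z) ∂(haar n))
      (ball z0 r) := by
    refine Pool.Agent.HP.differentiableOn_integral (haar n)
      (fun t z => conj (UnitAddTorus.mFourier γ t) * f (act t z)) (ball z0 r) isOpen_ball ?_ ?_
      (fun _ => C) (integrable_const _) ?_
    · intro z hz
      apply Continuous.aestronglyMeasurable
      have h1 : Continuous (fun t : Tor n => f (act t z)) := by
        rw [← continuousOn_univ]
        refine hf.continuousOn.comp (t := Ω) ?_ ?_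
        · exact (continuous_act.comp (by fun_prop : Continuous fun t : Tor n => (t, z))).continuousOn
        · intro t _
          exact act_mem hR (hsub (ball_subset_closedBall hz)) t
      exact (by fun_prop : Continuous fun t : Tor n => conj (UnitAddTorus.mFourier γ t)).mul h1
    · intro t
      apply DifferentiableOn.const_mul
      refine hf.comp (t := Ω) ?_ ?_
      · apply Differentiable.differentiableOn
        unfold act
        fun_prop
      · intro z hz
        exact act_mem hR (hsub (ball_subset_closedBall hz)) t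
    · intro t z hz
      rw [norm_mul, RCLike.norm_conj, norm_mFourier, one_mul]
      exact hC _ ⟨(t, z), ⟨mem_univ _, ball_subset_closedBall hz⟩, rfl⟩
  exact ((key z0 (mem_ball_self hr)).differentiableAt (ball_mem_nhds _ hr)).differentiableWithinAt

/-- a torus invariant holomorphic function has zero derivative where all coordinates are nonzero -/
theorem fderiv_eq_zero_of_inv {V : Set (Fin n → ℂ)} (hV : IsOpen V) (hVR : ∀ t : Tor n, ∀ z ∈ V, act t z ∈ V)
    {q : (Fin n → ℂ) → ℂ} (hq : DifferentiableOn ℂ q V) (hinv : ∀ t : Tor n, ∀ z ∈ V, q (act t z) = q z)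
    {z : Fin n → ℂ} (hz : z ∈ V) (hz0 : ∀ j, z j ≠ 0) : fderiv ℂ q z = 0 := by
  classical
  have hdz : DifferentiableAt ℂ q z := (hq z hz).differentiableAt (hV.mem_nhds hz)
  have key : ∀ j, fderiv ℂ q z (Pi.single j 1) = 0 := by
    intro j
    -- the curve
    let c : ℝ → (Fin n → ℂ) := fun x => z + (Complex.exp (2 * Real.pi * Complex.I * x) - 1) • Pi.single j (z j)
    have hc0 : c 0 = z := by simp [c]
    have hcd : HasDerivAt c ((2 * Real.pi * Complex.I) • Pi.single j (z j)) 0 := by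
      have h1 : HasDerivAt (fun x : ℝ => Complex.exp (2 * Real.pi * Complex.I * x) - 1)
          (2 * Real.pi * Complex.I) 0 := by
        have h2 : HasDerivAt (fun x : ℂ => Complex.exp (2 * Real.pi * Complex.I * x) - 1)
            (2 * Real.pi * Complex.I) ((0 : ℝ) : ℂ) := by
          have h3 : HasDerivAt (fun x : ℂ => 2 * Real.pi * Complex.I * x) (2 * Real.pi * Complex.I)
              ((0 : ℝ) : ℂ) := by
            simpa using (hasDerivAt_id ((0 : ℝ) : ℂ)).const_mul (2 * Real.pi * Complex.I)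
          have h4 := h3.cexp.sub_const 1
          simpa using h4
        exact h2.comp_ofReal
      exact (h1.smul_const _).const_add z
    have hqc : HasDerivAt (fun x => q (c x)) (fderiv ℂ q z ((2 * Real.pi * Complex.I) • Pi.single j (z j))) 0 := by
      have h5 : HasFDerivAt q ((fderiv ℂ q z).restrictScalars ℝ) (c 0) := by
        rw [hc0]; exact hdz.hasFDerivAt.restrictScalars ℝ
      exact h5.comp_hasDerivAt (0 : ℝ) hcd
    have hconst : ∀ x : ℝ, q (c x) = q z := by
      intro x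
      have h6 : c x = act (Pi.single j (x : UnitAddCircle)) z := by
        funext i
        simp only [c, act, Pi.add_apply, Pi.smul_apply, smul_eq_mul]
        by_cases hij : i = j
        · subst hij
          rw [Pi.single_eq_same, Pi.single_eq_same, fourier_coe_apply]
          simp only [Int.cast_one, mul_one, Complex.ofReal_one, div_one]
          ring
        · rw [Pi.single_eq_of_ne hij, Pi.single_eq_of_ne hij]
          simp
      rw [h6]
      exact hinv _ z hz
    have h7 : HasDerivAt (fun x => q (c x)) 0 (0 : ℝ) := by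
      have : (fun x => q (c x)) = fun _ => q z := by funext x; exact hconst x
      rw [this]; exact hasDerivAt_const _ _
    have h8 := hqc.unique h7
    rw [map_smul, smul_eq_mul] at h8
    have h9 : (Pi.single j (z j) : Fin n → ℂ) = z j • Pi.single j 1 := by
      funext i
      by_cases hij : i = j
      · subst hij; simp
      · simp [Pi.single_eq_of_ne hij]
    rw [h9, map_smul, smul_eq_mul] at h8
    have h10 : (2 * Real.pi * Complex.I : ℂ) ≠ 0 := Complex.two_pi_I_ne_zero
    exact (mul_eq_zero.1 ((mul_eq_zero.1 h8).resolve_left h10)).resolve_left (hz0 j)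
  apply ContinuousLinearMap.ext
  intro v
  have h11 : v = ∑ j, v j • (Pi.single j 1 : Fin n → ℂ) := by
    funext i
    simp [Finset.sum_apply, Pi.single_apply]
  rw [h11, map_sum]
  simp only [map_smul, key, smul_zero, Finset.sum_const_zero, zero_apply]

theorem diff_prod {ι E : Type*} [NormedAddCommGroup E] [NormedSpace ℂ E] (s : Finset ι)
    {g : ι → E → ℂ} {z : E} (h : ∀ i ∈ s, DifferentiableAt ℂ (g i) z) :
    DifferentiableAt ℂ (fun z => ∏ i ∈ s, g i z) z := by
  classical
  induction s using Finset.induction_on with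
  | empty => simp
  | insert a s ha ih =>
    simp only [Finset.prod_insert ha]
    exact (h a (Finset.mem_insert_self _ _)).mul (ih fun i hi => h i (Finset.mem_insert_of_mem hi))

theorem isOpen_nz : IsOpen {z : Fin n → ℂ | ∀ j, z j ≠ 0} := by
  have : {z : Fin n → ℂ | ∀ j, z j ≠ 0} = ⋂ j, {z | z j ≠ 0} := by ext z; simp
  rw [this]
  exact isOpen_iInter_of_finite fun j => isOpen_ne_fun (continuous_apply j) continuous_const

theorem exists_nz {Ω : Set (Fin n → ℂ)} (hΩ : IsOpen Ω) (hne : Ω.Nonempty) :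
    ∃ z ∈ Ω, ∀ j, z j ≠ 0 := by
  by_contra hcon
  push Not at hcon
  have h1 : Ω ⊆ {z | ¬ ∀ j, z j ≠ 0} := by
    intro z hz
    obtain ⟨j, hj⟩ := hcon z hz
    simp only [mem_ofPred_eq, not_forall, not_not]
    exact ⟨j, hj⟩
  have h2 : (volume : Measure (Fin n → ℂ)) Ω = 0 := measure_mono_null h1 ae_ne_zero
  exact (hΩ.measure_pos volume hne).ne' h2

/-- the component of weight `γ` of a holomorphic function on a Reinhardt domain is a multiple of
the monomial -/
theorem exists_avg_eq_mon {Ω : Set (Fin n → ℂ)} (hΩ : IsOpen Ω) (hc : IsPreconnected Ω)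
    (hR : IsReinhardt Ω) {f : (Fin n → ℂ) → ℂ} (hf : DifferentiableOn ℂ f Ω) (γ : Fin n → ℤ) :
    ∃ a : ℂ, ∀ z ∈ Ω, (∀ j, z j ≠ 0) → avg γ f z = a * mon γ z := by
  by_cases hne : Ω.Nonempty
  swap
  · exact ⟨0, fun z hz => absurd ⟨z, hz⟩ hne⟩
  obtain ⟨p, hp, hp0⟩ := exists_nz hΩ hne
  have hG := avg_differentiableOn hΩ hR hf γ
  set G := avg γ f with hGdef
  set V : Set (Fin n → ℂ) := Ω ∩ {z | ∀ j, z j ≠ 0} with hV
  have hVo : IsOpen V := hΩ.inter isOpen_nz
  have hVR : ∀ t : Tor n, ∀ z ∈ V, act t z ∈ V := by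
    rintro t z ⟨hz, hz0⟩
    refine ⟨act_mem hR hz t, fun j => ?_⟩
    rw [act_apply]
    refine mul_ne_zero ?_ (hz0 j)
    rw [← norm_ne_zero_iff, norm_fourier_one]
    exact one_ne_zero
  have hmd : ∀ δ : Fin n → ℤ, DifferentiableOn ℂ (mon δ) {z : Fin n → ℂ | ∀ j, z j ≠ 0} := by
    intro δ z hz
    unfold mon
    apply DifferentiableAt.differentiableWithinAt
    refine diff_prod _ (fun j _ => ?_)
    have h1 : DifferentiableAt ℂ (fun w : ℂ => w ^ δ j) (z j) := differentiableAt_zpow.2 (Or.inl (hz j))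
    exact DifferentiableAt.comp (f := fun z : Fin n → ℂ => z j) z h1 (by fun_prop)
  set q : (Fin n → ℂ) → ℂ := fun z => G z * mon (-γ) z with hq
  have hqd : DifferentiableOn ℂ q V :=
    (hG.mono inter_subset_left).mul ((hmd (-γ)).mono inter_subset_right)
  have hqi : ∀ t : Tor n, ∀ z ∈ V, q (act t z) = q z := by
    intro t z hz
    simp only [hq]
    rw [hGdef, avg_act, mon_neg, mon_neg, mon_act, mul_inv]
    have h1 : UnitAddTorus.mFourier γ t ≠ 0 := by
      rw [← norm_ne_zero_iff, norm_mFourier]; exact one_ne_zero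
    field_simp
  have hq0 : ∀ z ∈ V, fderiv ℂ q z = 0 := fun z hz =>
    fderiv_eq_zero_of_inv hVo hVR hqd hqi hz hz.2
  obtain ⟨ε, hε, hball⟩ := Metric.isOpen_iff.1 hVo p ⟨hp, hp0⟩
  have hqc : ∀ z ∈ ball p ε, q z = q p := by
    intro z hz
    exact (convex_ball p ε).is_const_of_fderivWithin_eq_zero (𝕜 := ℂ) (hqd.mono hball)
      (fun w hw => by rw [fderivWithin_of_isOpen isOpen_ball hw]; exact hq0 w (hball hw)) hz
      (mem_ball_self hε)
  refine ⟨q p, ?_⟩
  -- globalise
  set H : (Fin n → ℂ) → ℂ := fun z =>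
    G z * ∏ j, z j ^ (-γ j).toNat - q p * ∏ j, z j ^ (γ j).toNat with hH
  have hrel : ∀ z : Fin n → ℂ, (∀ j, z j ≠ 0) →
      mon γ z * ∏ j, z j ^ (-γ j).toNat = ∏ j, z j ^ (γ j).toNat := by
    intro z hz
    simp only [mon]
    rw [← Finset.prod_mul_distrib]
    apply Finset.prod_congr rfl
    intro j _
    rw [← zpow_natCast (z j) (-γ j).toNat, ← zpow_natCast (z j) (γ j).toNat, ← zpow_add₀ (hz j)]
    congr 1
    rcases le_total 0 (γ j) with h | h
    · rw [Int.toNat_of_nonneg h, Int.toNat_of_nonpos (by omega)]; simp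
    · rw [Int.toNat_of_nonpos h, Int.toNat_of_nonneg (by omega)]; simp
  have hHd : DifferentiableOn ℂ H Ω := by
    apply DifferentiableOn.sub
    · apply hG.mul
      intro z _
      apply DifferentiableAt.differentiableWithinAt
      exact diff_prod _ (fun j _ => by fun_prop)
    · apply DifferentiableOn.const_mul
      intro z _
      apply DifferentiableAt.differentiableWithinAt
      exact diff_prod _ (fun j _ => by fun_prop)
  have hHp : H =ᶠ[𝓝 p] 0 := by
    refine Filter.eventually_of_mem (ball_mem_nhds p hε) (fun z hz => ?_)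
    have hzV := hball hz
    have h1 := hqc z hz
    have h2 : G z = q p * mon γ z := by
      rw [← h1]
      simp only [hq, mon_neg]
      rw [mul_assoc, inv_mul_cancel₀ (mon_ne_zero γ hzV.2), mul_one]
    simp only [hH, Pi.zero_apply]
    rw [h2, mul_assoc, hrel z hzV.2, sub_self]
  have hHz := eq_zero_of_eqOn_open hΩ hc hHd hp hHp
  intro z hz hz0
  have h1 := hHz z hz
  simp only [hH] at h1
  rw [← hrel z hz0, ← mul_assoc, ← sub_mul] at h1
  have h2 : ∏ j, z j ^ (-γ j).toNat ≠ 0 := Finset.prod_ne_zero_iff.2 fun j _ => pow_ne_zero _ (hz0 j)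
  exact sub_eq_zero.1 ((mul_eq_zero.1 h1).resolve_right h2)

end Pool.Agent.W738.HS
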